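import Pool.Agent.TH827.CN.Core

set_option autoImplicit false
set_option maxHeartbeats 4000000

/-! # Asymptotics and the final statement -/

namespace Pool.Agent.TH827.CN

open Finset Filter Asymptotics

lemma ev_pow (a b C : ℝ) (hab : a < b) : ∀ᶠ ξ : ℝ in atTop, C * ξ ^ a ≤ ξ ^ b := by
  have h : Tendsto (fun ξ : ℝ => ξ ^ (b - a)) atTop atTop := tendsto_rpow_atTop (by linarith)
  filter_upwards [h.eventually_ge_atTop C, eventually_gt_atTop 0] with ξ h1 h2
  have e : ξ ^ b = ξ ^ (b - a) * ξ ^ a := by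
    rw [← Real.rpow_add h2]
    congr 1
    ring
  rw [e]
  exact mul_le_mul_of_nonneg_right h1 (by positivity)

lemma ev_log (a b C : ℝ) (hC : 0 ≤ C) (hab : a < b) :
    ∀ᶠ ξ : ℝ in atTop, C * (1 + Real.log ξ) * ξ ^ a ≤ ξ ^ b := by
  have hr : 0 < (b - a) / 2 := by linarith
  have h := (isLittleO_log_rpow_atTop hr).bound (c := 1) (by norm_num)
  filter_upwards [h, eventually_ge_atTop 1, ev_pow 0 ((b - a) / 2) (2 * C) hr] with ξ h1 h2 h3
  have h0 : (0 : ℝ) < ξ := by linarith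
  have hlog : Real.log ξ ≤ ξ ^ ((b - a) / 2) := by
    rw [one_mul, Real.norm_of_nonneg (Real.log_nonneg h2),
      Real.norm_of_nonneg (by positivity)] at h1
    exact h1
  have h1' : (1 : ℝ) ≤ ξ ^ ((b - a) / 2) := Real.one_le_rpow h2 hr.le
  rw [Real.rpow_zero, mul_one] at h3
  have h4 : C * (1 + Real.log ξ) ≤ ξ ^ (b - a) := by
    calc C * (1 + Real.log ξ) ≤ C * (2 * ξ ^ ((b - a) / 2)) := by
          apply mul_le_mul_of_nonneg_left (by linarith) hC
      _ = (2 * C) * ξ ^ ((b - a) / 2) := by ring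
      _ ≤ ξ ^ ((b - a) / 2) * ξ ^ ((b - a) / 2) := mul_le_mul_of_nonneg_right h3 (by positivity)
      _ = ξ ^ (b - a) := by
          rw [← Real.rpow_add h0]
          congr 1
          ring
  have e : ξ ^ b = ξ ^ (b - a) * ξ ^ a := by
    rw [← Real.rpow_add h0]
    congr 1
    ring
  rw [e]
  exact mul_le_mul_of_nonneg_right h4 (by positivity)

lemma half_le_log2 : (1 / 2 : ℝ) ≤ Real.log 2 := by
  have := Real.log_two_gt_d9
  linarith

lemma exJ (D0 : ℕ) (Λ : ℝ) (hD : 1 ≤ D0) (hle : (D0 : ℝ) ≤ Λ) :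
    ∃ J : ℕ, Λ ≤ 2 ^ J * D0 ∧ (2 ^ J * D0 : ℝ) ≤ 2 * Λ ∧ (J : ℝ) ≤ 2 * Real.log (2 * Λ) := by
  classical
  have hD' : (1 : ℝ) ≤ D0 := by exact_mod_cast hD
  have hex : ∃ J : ℕ, Λ ≤ 2 ^ J * D0 := by
    obtain ⟨n, hn⟩ := pow_unbounded_of_one_lt Λ (by norm_num : (1 : ℝ) < 2)
    refine ⟨n, ?_⟩
    nlinarith [pow_pos (by norm_num : (0 : ℝ) < 2) n]
  set J := Nat.find hex with hJ
  have h1 : Λ ≤ 2 ^ J * D0 := Nat.find_spec hex
  have h2 : (2 ^ J * D0 : ℝ) ≤ 2 * Λ := by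
    rcases Nat.eq_zero_or_pos J with h0 | h0
    · rw [h0, pow_zero, one_mul]
      linarith
    · obtain ⟨k, hk⟩ := Nat.exists_eq_succ_of_ne_zero (Nat.pos_iff_ne_zero.mp h0)
      have h3 : ¬ Λ ≤ 2 ^ k * D0 := Nat.find_min hex (by omega)
      push Not at h3
      rw [hk, Nat.succ_eq_add_one, pow_succ]
      linarith
  refine ⟨J, h1, h2, ?_⟩
  have h4 : (2 : ℝ) ^ J ≤ 2 * Λ := by
    calc (2 : ℝ) ^ J = 2 ^ J * 1 := by ring
      _ ≤ 2 ^ J * D0 := by
          apply mul_le_mul_of_nonneg_left hD' (by positivity)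
      _ ≤ 2 * Λ := h2
  have h5 : (J : ℝ) * Real.log 2 ≤ Real.log (2 * Λ) := by
    rw [← Real.log_pow]
    exact Real.log_le_log (by positivity) h4
  have h6 := half_le_log2
  have h7 : (0 : ℝ) ≤ J := Nat.cast_nonneg _
  nlinarith

lemma card_pf (x : ℕ) (hx : 0 < x) : (x.primeFactors.card : ℝ) ≤ 2 * Real.log x := by
  have h1 : 2 ^ x.primeFactors.card ≤ x := by
    calc 2 ^ x.primeFactors.card = ∏ _p ∈ x.primeFactors, 2 := by rw [prod_const]
      _ ≤ ∏ p ∈ x.primeFactors, p := by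
          apply prod_le_prod' 
          intro p hp
          exact (Nat.prime_of_mem_primeFactors hp).two_le
      _ ≤ x := Nat.le_of_dvd hx (Nat.prod_primeFactors_dvd x)
  have h2 : (2 : ℝ) ^ x.primeFactors.card ≤ x := by exact_mod_cast h1
  have h3 : (x.primeFactors.card : ℝ) * Real.log 2 ≤ Real.log x := by
    rw [← Real.log_pow]
    exact Real.log_le_log (by positivity) h2
  have h6 := half_le_log2
  have h7 : (0 : ℝ) ≤ x.primeFactors.card := Nat.cast_nonneg _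
  nlinarith

/-- large parameters -/
theorem large_param (j : ℕ) (hj : j = 1 ∨ j = 2 ∨ j = 3 ∨ j = 5 ∨ j = 6 ∨ j = 7) (η : ℝ)
    (hη0 : 0 < η) (hη1 : η ≤ 1 / 24) :
    ∃ C : ℝ, 0 < C ∧ ∀ᶠ ξ : ℝ in atTop, ∃ A : Finset ℕ, ξ ^ (1 / 2 : ℝ) ≤ A.card ∧
      ∀ n ∈ A, n ∈ CSet j (2 * ξ ^ 6 / (3 * √3)) (C * ξ ^ (4 + 2 * η)) := by
  classical
  obtain ⟨x0, b0, hres⟩ := res j hj
  have hQ0 := Q_pos
  have hQr : (1 : ℝ) ≤ Q := by exact_mod_cast hQ0
  set C1 : ℝ := 2 + 3 * Q with hC1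
  have hC10 : 0 < C1 := by positivity
  set M : ℕ := 700000 * Q with hM
  have hMr : (0 : ℝ) ≤ M := Nat.cast_nonneg _
  refine ⟨116 * √C1 * Q, by positivity, ?_⟩
  filter_upwards [eventually_ge_atTop 100, ev_pow η 1 (200 * C1) (by linarith),
    ev_pow (1 + 2 * η) 3 (4 * (Q : ℝ) ^ 2) (by linarith),
    ev_pow (1 / 2 + η) 1 (Q : ℝ) (by linarith),
    ev_pow (1 / 2) (3 / 4 - η / 2) 7 (by linarith),
    ev_pow (1 / 2 + η) (3 / 4 - η / 2) (Q : ℝ) (by linarith),
    ev_log (1 / 2) (1 / 2 + η) (2000 * (M + 3)) (by positivity) (by linarith),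
    ev_log 0 η 100 (by norm_num) hη0,
    ev_pow 0 η 100 hη0] with ξ h100 hE2 hE3 hE4 hE5 hE6 hE7 hE8 hE9
  have hξ0 : (0 : ℝ) < ξ := by linarith
  have hξ1 : (1 : ℝ) ≤ ξ := by linarith
  rw [Real.rpow_zero, mul_one] at hE8 hE9
  rw [Real.rpow_one] at hE2 hE4
  -- abbreviations
  set u : ℝ := ξ ^ η with hu
  set s : ℝ := ξ ^ (1 / 2 : ℝ) with hs
  have hs0 : 0 < s := by positivity
  have hu0 : 0 < u := by positivity
  have hss : s * s = ξ := by
    rw [hs, ← Real.rpow_add hξ0]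
    norm_num
  have hs10 : 10 ≤ s := by nlinarith
  have hsu : ξ ^ (1 / 2 + η) = s * u := by rw [hs, hu, Real.rpow_add hξ0]
  rw [hsu] at hE4 hE6 hE7
  have hE3' : 4 * (Q : ℝ) ^ 2 * (ξ * u ^ 2) ≤ ξ ^ 3 := by
    have e1 : ξ ^ (1 + 2 * η) = ξ * u ^ 2 := by
      rw [Real.rpow_add hξ0, Real.rpow_one, hu, ← Real.rpow_natCast (ξ ^ η) 2,
        ← Real.rpow_mul hξ0.le]
      congr 2
      push_cast
      ring
    have e2 : ξ ^ (3 : ℝ) = ξ ^ 3 := by
      rw [← Real.rpow_natCast ξ 3]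
      norm_num
    rw [e1, e2] at hE3
    exact hE3
  have hlog0 : 0 ≤ Real.log ξ := Real.log_nonneg hξ1
  -- choice of `x`
  set K : ℕ := ⌈u⌉₊ with hK
  have hK1 : u ≤ K := Nat.le_ceil _
  have hK2 : (K : ℝ) < u + 1 := Nat.ceil_lt_add_one hu0.le
  have hK0 : 0 < K := Nat.ceil_pos.mpr hu0
  obtain ⟨x1, hx1a, hx1b, hx1c⟩ : ∃ x1 : ℕ, ξ + 1 ≤ x1 ∧ (x1 : ℝ) < ξ + 2 + Q ∧
      x1 ≡ x0 [MOD Q] := by
    set m : ℕ := ⌈ξ + 1⌉₊ with hm
    have hm1 : ξ + 1 ≤ m := Nat.le_ceil _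
    have hm2 : (m : ℝ) < ξ + 1 + 1 := Nat.ceil_lt_add_one (by linarith)
    set r : ℕ := (x0 + (Q - m % Q)) % Q with hr'
    have hrQ : r < Q := Nat.mod_lt _ hQ0
    refine ⟨m + r, ?_, ?_, ?_⟩
    · push_cast
      have : (0 : ℝ) ≤ r := Nat.cast_nonneg _
      linarith
    · push_cast
      have : (r : ℝ) + 1 ≤ Q := by exact_mod_cast hrQ
      linarith
    · have hmQ : m % Q < Q := Nat.mod_lt _ hQ0
      have e1 : m + r ≡ m % Q + (x0 + (Q - m % Q)) [MOD Q] := by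
        apply Nat.ModEq.add (Nat.mod_modEq m Q).symm
        rw [hr']
        exact Nat.mod_modEq _ _
      have e2 : m % Q + (x0 + (Q - m % Q)) = x0 + Q := by omega
      rw [e2] at e1
      exact e1.trans (by simp [Nat.ModEq])
  have hu1 : (1 : ℝ) ≤ u := by linarith
  have hC1u : 200 * (C1 * u) ≤ ξ := by linarith
  have hQK : (Q : ℝ) * K ≤ Q * u + Q := by
    have := mul_le_mul_of_nonneg_left hK2.le (by positivity : (0 : ℝ) ≤ Q)
    linarith
  have hC1b : 2 + Q + (Q * u + Q) ≤ C1 * u := by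
    rw [hC1]
    have := mul_nonneg (by positivity : (0 : ℝ) ≤ 2 + 2 * (Q : ℝ)) (by linarith : (0 : ℝ) ≤ u - 1)
    linarith
  set B : ℕ := ⌈2 * ξ⌉₊ with hB
  have hB1 : 2 * ξ ≤ B := Nat.le_ceil _
  have hB2 : (B : ℝ) < 2 * ξ + 1 := Nat.ceil_lt_add_one (by linarith)
  have hxB : x1 + Q * K ≤ B := by
    have : ((x1 + Q * K : ℕ) : ℝ) ≤ B := by
      push_cast
      have : 0 < C1 * u := by positivity
      linarith
    exact_mod_cast this
  have hx1pos : 0 < x1 := by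
    have : (0 : ℝ) < x1 := by linarith
    exact_mod_cast this
  obtain ⟨k, hkK, hsum⟩ := choose_x x1 Q K B Q_prime hK0 hxB hx1pos
  set x : ℕ := x1 + Q * k with hx
  have hkQ : (Q : ℝ) * k ≤ Q * K := by
    have : (k : ℝ) ≤ K := by exact_mod_cast hkK.le
    exact mul_le_mul_of_nonneg_left this (by positivity)
  have hxr : (x : ℝ) = x1 + Q * k := by rw [hx]; push_cast; ring
  have hkQ0 : (0 : ℝ) ≤ Q * k := by positivity
  have hxξ1 : ξ + 1 ≤ x := by rw [hxr]; linarith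
  have hκ : (x : ℝ) - ξ ≤ C1 * u := by rw [hxr]; linarith
  have hx2ξ : (x : ℝ) ≤ 2 * ξ := by
    have : 0 < C1 * u := by positivity
    linarith
  have hxN : 0 < x := by
    have : (0 : ℝ) < x := by linarith
    exact_mod_cast this
  have hxx0 : x ≡ x0 [MOD Q] := by
    have : x1 + Q * k ≡ x0 + 0 [MOD Q] := by
      apply Nat.ModEq.add hx1c
      rw [Nat.modEq_zero_iff_dvd]
      exact Dvd.intro _ rfl
    rw [add_zero] at this
    exact this
  -- the window length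
  set T : ℕ := ⌊s * u⌋₊ with hT
  have hsu0 : 0 ≤ s * u := by positivity
  have hT1 : (T : ℝ) ≤ s * u := Nat.floor_le hsu0
  have hT2 : s * u < T + 1 := Nat.lt_floor_add_one _
  have hsu1 : 1000 ≤ s * u := by
    calc (1000 : ℝ) = 10 * 100 := by norm_num
      _ ≤ s * u := mul_le_mul hs10 hE9 (by norm_num) hs0.le
  have h100s : 100 * s ≤ s * u := by
    have := mul_le_mul_of_nonneg_left hE9 hs0.le
    linarith
  have hsuQ : s * u ≤ Q * (s * u) := le_mul_of_one_le_left hsu0 hQr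
  have hξsq : 0 < ξ ^ 2 := by positivity
  -- `D0`
  set D0 : ℕ := ⌈6 * s⌉₊ with hD0
  have hD1 : 6 * s ≤ D0 := Nat.le_ceil _
  have hD2 : (D0 : ℝ) < 6 * s + 1 := Nat.ceil_lt_add_one (by positivity)
  have hD2' : (D0 : ℝ) ≤ 7 * s := by linarith
  have hDpos : 0 < D0 := by
    have : (0 : ℝ) < D0 := by linarith
    exact_mod_cast this
  -- `J`
  set Λ : ℝ := 32 * ξ ^ (3 / 4 - η / 2) with hΛ
  have hΛD : (D0 : ℝ) ≤ Λ := by
    have : 0 < ξ ^ (3 / 4 - η / 2) := by positivity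
    rw [hΛ]
    linarith
  obtain ⟨J, hJ1, hJ2, hJ3⟩ := exJ D0 Λ hDpos hΛD
  have hΛsq : Λ ^ 2 * u = 1024 * (ξ * s) := by
    rw [hΛ, mul_pow, ← Real.rpow_natCast (ξ ^ (3 / 4 - η / 2)) 2, ← Real.rpow_mul hξ0.le, mul_assoc,
      hu, ← Real.rpow_add hξ0]
    have e1 : ξ * s = ξ ^ (3 / 2 : ℝ) := by
      rw [hs]
      nth_rewrite 1 [← Real.rpow_one ξ]
      rw [← Real.rpow_add hξ0]
      norm_num
    rw [e1]
    congr 1
    · norm_num
    · congr 1
      push_cast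
      ring
  have hΛ0 : 0 < Λ := by positivity
  -- core
  have hcore := core j x0 b0 hres ξ x T D0 M J hξ0 hxx0 hxξ1 (by linarith)
    (by
      have : (8 : ℝ) ≤ x := by linarith
      exact_mod_cast this)
    (by
      -- `(Q (T + 1)) ^ 2 ≤ x ^ 3`
      have e1 : (Q : ℝ) * (T + 1) ≤ 2 * Q * (s * u) := by
        have := mul_le_mul_of_nonneg_left (by linarith : (T : ℝ) + 1 ≤ 2 * (s * u))
          (by positivity : (0 : ℝ) ≤ Q)
        linarith
      have e2 : ((Q : ℝ) * (T + 1)) ^ 2 ≤ (2 * Q * (s * u)) ^ 2 :=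
        pow_le_pow_left₀ (by positivity) e1 2
      have e3 : (2 * (Q : ℝ) * (s * u)) ^ 2 = 4 * (Q : ℝ) ^ 2 * (ξ * u ^ 2) := by
        rw [← hss]; ring
      have e4 : ξ ^ 3 ≤ (x : ℝ) ^ 3 := pow_le_pow_left₀ hξ0.le (by linarith) 3
      linarith)
    hDpos
    (by
      -- `T ≤ D0 ^ 2`
      have e1 : (36 : ℝ) * ξ ≤ (D0 : ℝ) ^ 2 := by
        have := pow_le_pow_left₀ (by positivity) hD1 2
        have e : (6 * s) ^ 2 = 36 * ξ := by rw [← hss]; ring
        linarith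
      have : (T : ℝ) ≤ ((D0 ^ 2 : ℕ) : ℝ) := by
        push_cast
        linarith
      exact_mod_cast this)
    (by
      -- `48 x ^ 2 < D0 ^ 4`
      have e1 : (36 * ξ) ^ 2 ≤ (D0 : ℝ) ^ 4 := by
        have := pow_le_pow_left₀ (by positivity) hD1 4
        have e : (6 * s) ^ 4 = (36 * ξ) ^ 2 := by rw [← hss]; ring
        linarith
      have e2 : (x : ℝ) ^ 2 ≤ (2 * ξ) ^ 2 := pow_le_pow_left₀ (by positivity) hx2ξ 2
      have : ((48 * x ^ 2 : ℕ) : ℝ) < ((D0 ^ 4 : ℕ) : ℝ) := by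
        push_cast
        linarith
      exact_mod_cast this)
    (by
      -- `4 Q T < D0 ^ 2`
      have e1 : (36 : ℝ) * ξ ≤ (D0 : ℝ) ^ 2 := by
        have := pow_le_pow_left₀ (by positivity) hD1 2
        have e : (6 * s) ^ 2 = 36 * ξ := by rw [← hss]; ring
        linarith
      have e2 : (Q : ℝ) * T ≤ Q * (s * u) := mul_le_mul_of_nonneg_left hT1 (by positivity)
      have : ((4 * (Q * T) : ℕ) : ℝ) < ((D0 ^ 2 : ℕ) : ℝ) := by
        push_cast
        linarith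
      exact_mod_cast this)
    (by
      -- `512 Q T D1 ^ 2 ≤ 3 x ^ 2 M`
      have e1 : ((2 : ℝ) ^ J * D0) ^ 2 ≤ (2 * Λ) ^ 2 := pow_le_pow_left₀ (by positivity) hJ2 2
      have e2 : (Q : ℝ) * T ≤ Q * (s * u) := mul_le_mul_of_nonneg_left hT1 (by positivity)
      have e3 : ξ ^ 2 ≤ (x : ℝ) ^ 2 := pow_le_pow_left₀ hξ0.le (by linarith) 2
      have : ((512 * (Q * T) * (2 ^ J * D0) ^ 2 : ℕ) : ℝ) ≤ ((3 * x ^ 2 * M : ℕ) : ℝ) := by
        push_cast
        calc 512 * ((Q : ℝ) * T) * (2 ^ J * D0) ^ 2 ≤ 512 * (Q * (s * u)) * (2 * Λ) ^ 2 := by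
              apply mul_le_mul _ e1 (by positivity) (by positivity)
              linarith
          _ = 2048 * Q * s * (Λ ^ 2 * u) := by ring
          _ = 2097152 * Q * ξ * (s * s) := by rw [hΛsq]; ring
          _ = 2097152 * Q * ξ ^ 2 := by rw [hss]; ring
          _ ≤ 3 * ξ ^ 2 * (700000 * Q) := by
              have := mul_nonneg (sq_nonneg ξ) (by positivity : (0 : ℝ) ≤ Q)
              linarith
          _ ≤ 3 * (x : ℝ) ^ 2 * (700000 * Q) := by
              apply mul_le_mul_of_nonneg_right _ (by positivity)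
              linarith
          _ = 3 * (x : ℝ) ^ 2 * M := by rw [hM]; push_cast; ring
      exact_mod_cast this)
    (by
      -- `Q T ≤ 2 D1`
      have e2 : (Q : ℝ) * T ≤ Q * (s * u) := mul_le_mul_of_nonneg_left hT1 (by positivity)
      have e3 : 0 < ξ ^ (3 / 4 - η / 2) := by positivity
      have : ((Q * T : ℕ) : ℝ) ≤ ((2 * (2 ^ J * D0) : ℕ) : ℝ) := by
        push_cast
        have : Q * (s * u) ≤ Λ := by
          rw [hΛ]
          linarith
        linarith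
      exact_mod_cast this)
    (by
      -- the divisor sum
      refine hsum.trans ?_
      have hKr : (0 : ℝ) < K := by exact_mod_cast hK0
      have e1 : Real.log B ≤ 2 + Real.log ξ := by
        have e2 : (B : ℝ) ≤ 4 * ξ := by linarith
        have e3 : Real.log B ≤ Real.log (4 * ξ) := Real.log_le_log (by linarith) e2
        rw [Real.log_mul (by norm_num) hξ0.ne'] at e3
        have e4 : Real.log 4 ≤ 2 := by
          have : Real.log 4 = 2 * Real.log 2 := by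
            rw [show (4 : ℝ) = 2 ^ 2 by norm_num, Real.log_pow]
            norm_num
          have h9 := Real.log_two_lt_d9
          linarith
        linarith
      have e2 : (1 + Real.log B) / K ≤ 3 / 100 := by
        rw [div_le_iff₀ hKr]
        linarith
      norm_num at e2 ⊢
      linarith)
    (by
      -- the rest
      have hJlog : (J : ℝ) ≤ 12 * (1 + Real.log ξ) := by
        have e1 : Real.log (2 * Λ) ≤ 5 + Real.log ξ := by
          have e2 : 2 * Λ ≤ 64 * ξ := by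
            rw [hΛ]
            have : ξ ^ (3 / 4 - η / 2) ≤ ξ ^ (1 : ℝ) :=
              Real.rpow_le_rpow_of_exponent_le hξ1 (by linarith)
            rw [Real.rpow_one] at this
            linarith
          have e3 : Real.log (2 * Λ) ≤ Real.log (64 * ξ) := Real.log_le_log (by positivity) e2
          rw [Real.log_mul (by norm_num) hξ0.ne'] at e3
          have e4 : Real.log 64 ≤ 5 := by
            have : Real.log 64 = 6 * Real.log 2 := by
              rw [show (64 : ℝ) = 2 ^ 6 by norm_num, Real.log_pow]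
              norm_num
            have h9 := Real.log_two_lt_d9
            linarith
          linarith
        linarith
      have hdiv : (((2 * x ^ 2) / (2 ^ J * D0) ^ 2 : ℕ) : ℝ) ≤ s * u / 128 := by
        refine Nat.cast_div_le.trans ?_
        push_cast
        have hΛJ : Λ ^ 2 ≤ ((2 : ℝ) ^ J * D0) ^ 2 := pow_le_pow_left₀ hΛ0.le hJ1 2
        rw [div_le_iff₀ (by positivity)]
        have e2 : (x : ℝ) ^ 2 ≤ (2 * ξ) ^ 2 := pow_le_pow_left₀ (by positivity) hx2ξ 2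
        calc 2 * (x : ℝ) ^ 2 ≤ 8 * ξ ^ 2 := by linarith
          _ = s / 128 * (1024 * (ξ * s)) := by rw [← hss]; ring
          _ = s / 128 * (Λ ^ 2 * u) := by rw [hΛsq]
          _ = s * u / 128 * Λ ^ 2 := by ring
          _ ≤ s * u / 128 * (2 ^ J * D0) ^ 2 := mul_le_mul_of_nonneg_left hΛJ (by positivity)
      have hω := card_pf x hxN
      have hlogx : Real.log x ≤ 1 + Real.log ξ := by
        have e3 : Real.log x ≤ Real.log (2 * ξ) := Real.log_le_log (by exact_mod_cast hxN) hx2ξ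
        rw [Real.log_mul (by norm_num) hξ0.ne'] at e3
        have h9 := Real.log_two_lt_d9
        linarith
      push_cast at hdiv ⊢
      set l : ℝ := 1 + Real.log ξ with hl
      have hl1 : 1 ≤ l := by linarith
      have e5 : (J : ℝ) * ((M + 2) * D0) ≤ 12 * l * ((M + 2) * (7 * s)) := by
        apply mul_le_mul hJlog _ (by positivity) (by positivity)
        apply mul_le_mul_of_nonneg_left hD2' (by positivity)
      have e6 : (D0 : ℝ) ≤ 7 * s * l := by
        have := mul_le_mul_of_nonneg_left hl1 (by positivity : (0 : ℝ) ≤ 7 * s)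
        linarith
      have e7 : (x.primeFactors.card : ℝ) ≤ 2 * l := by linarith
      have e8 : 2 * l ≤ 2 * l * s := by
        have := mul_le_mul_of_nonneg_left (by linarith : (1 : ℝ) ≤ s)
          (by linarith : (0 : ℝ) ≤ 2 * l)
        linarith
      have e9 : 2000 * ((M : ℝ) + 3) * l * s ≤ s * u := hE7
      have e10 : 3 * ((D0 : ℝ) + ((J : ℝ) * ((M + 2) * D0))) + 2 * l * s ≤
          260 * ((M : ℝ) + 3) * l * s := by
        have : 3 * (7 * s * l + 12 * l * ((M + 2) * (7 * s))) + 2 * l * s ≤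
            260 * ((M : ℝ) + 3) * l * s := by
          have hls : 0 ≤ (8 * (M : ℝ) + 253) * (l * s) := by positivity
          have e12 : 260 * ((M : ℝ) + 3) * l * s -
              (3 * (7 * s * l + 12 * l * ((M + 2) * (7 * s))) + 2 * l * s) =
              (8 * (M : ℝ) + 253) * (l * s) := by ring
          linarith
        linarith
      have e11 : (s * u) / 4 - 1 / 4 ≤ (T : ℝ) / 4 := by linarith
      linarith)
  obtain ⟨A, hA1, hA2⟩ := hcore
  refine ⟨A, ?_, ?_⟩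
  · -- cardinality
    linarith
  · intro n hn
    obtain ⟨q1, q2, q3⟩ := hA2 n hn
    refine ⟨q1, q2.trans ?_, q3⟩
    have hs3 := sqrt3_bounds
    have f1 : (x : ℝ) ^ 2 / √3 ≤ 2.4 * ξ ^ 2 := by
      have e2 : (x : ℝ) ^ 2 ≤ (2 * ξ) ^ 2 := pow_le_pow_left₀ (by positivity) hx2ξ 2
      rw [div_le_iff₀ (by positivity)]
      have := mul_le_mul_of_nonneg_left hs3.1.le (by positivity : (0 : ℝ) ≤ 2.4 * ξ ^ 2)
      linarith
    have f2 : √(2 * ((x : ℝ) - ξ) * (x : ℝ) ^ 3) ≤ 4 * √C1 * (ξ * s * u) := by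
      apply Real.sqrt_le_iff.mpr
      refine ⟨by positivity, ?_⟩
      have e3 : (x : ℝ) ^ 3 ≤ (2 * ξ) ^ 3 := pow_le_pow_left₀ (by positivity) hx2ξ 3
      have e4 : 2 * ((x : ℝ) - ξ) * (x : ℝ) ^ 3 ≤ 2 * (C1 * u) * (2 * ξ) ^ 3 := by
        apply mul_le_mul (by linarith) e3 (by positivity) (by positivity)
      have e5 : (4 * √C1 * (ξ * s * u)) ^ 2 = 16 * C1 * ξ ^ 3 * u ^ 2 := by
        have : √C1 ^ 2 = C1 := Real.sq_sqrt hC10.le
        calc (4 * √C1 * (ξ * s * u)) ^ 2 = 16 * (√C1 ^ 2) * ξ ^ 2 * (s * s) * u ^ 2 := by ring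
          _ = 16 * C1 * ξ ^ 3 * u ^ 2 := by rw [this, hss]; ring
      rw [e5]
      have e6 : u ≤ u ^ 2 := by
        have := mul_le_mul_of_nonneg_left hu1 hu0.le
        linarith
      calc 2 * ((x : ℝ) - ξ) * (x : ℝ) ^ 3 ≤ 2 * (C1 * u) * (2 * ξ) ^ 3 := e4
        _ = 16 * C1 * ξ ^ 3 * u := by ring
        _ ≤ 16 * C1 * ξ ^ 3 * u ^ 2 := mul_le_mul_of_nonneg_left e6 (by positivity)
    have f3 : (Q : ℝ) * (T + 1) ≤ 2 * Q * (s * u) := by
      have := mul_le_mul_of_nonneg_left (by linarith : (T : ℝ) + 1 ≤ 2 * (s * u))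
        (by positivity : (0 : ℝ) ≤ Q)
      linarith
    have f4 : ξ ^ (4 + 2 * η) = ξ ^ 4 * u ^ 2 := by
      rw [Real.rpow_add hξ0, hu, ← Real.rpow_natCast ξ 4, ← Real.rpow_natCast (ξ ^ η) 2,
        ← Real.rpow_mul hξ0.le]
      congr 2
      push_cast
      ring
    have f5 : 6 * ((x : ℝ) ^ 2 / √3) * √(2 * ((x : ℝ) - ξ) * (x : ℝ) ^ 3) * (Q * (T + 1)) ≤
        6 * (2.4 * ξ ^ 2) * (4 * √C1 * (ξ * s * u)) * (2 * Q * (s * u)) := by
      apply mul_le_mul _ f3 (by positivity) (by positivity)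
      apply mul_le_mul _ f2 (by positivity) (by positivity)
      linarith
    have f6 : 6 * (2.4 * ξ ^ 2) * (4 * √C1 * (ξ * s * u)) * (2 * Q * (s * u)) ≤
        116 * √C1 * Q * ξ ^ (4 + 2 * η) := by
      rw [f4]
      calc 6 * (2.4 * ξ ^ 2) * (4 * √C1 * (ξ * s * u)) * (2 * Q * (s * u)) =
            115.2 * (√C1 * Q * ξ ^ 3 * (s * s) * u ^ 2) := by ring
        _ = 115.2 * (√C1 * Q * ξ ^ 4 * u ^ 2) := by rw [hss]; ring
        _ ≤ 116 * (√C1 * Q * ξ ^ 4 * u ^ 2) := by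
            apply mul_le_mul_of_nonneg_right (by norm_num) (by positivity)
        _ = 116 * √C1 * Q * (ξ ^ 4 * u ^ 2) := by ring
    linarith

end Pool.Agent.TH827.CN
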