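import Mathlib

set_option autoImplicit false
set_option maxHeartbeats 4000000

/-! # Large square divisors in short intervals

For `N` large and `h` somewhat larger than `N ^ (1/4)` there are few integers `d ≥ D0` such that a
multiple of `d ^ 2` lies in `(N, N + h]`. Elementary second difference argument. -/

namespace Pool.Agent.TH827.CN

open Finset

/-- the second divided difference of `N / x ^ 2` at three integers -/
lemma three (N h D L : ℕ) (a b c ma mb mc : ℕ) (hab : a < b) (hbc : b < c)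
    (hDa : D ≤ a) (hcD : c ≤ 2 * D) (hD : 0 < D)
    (ha : N < ma * a ^ 2) (ha' : ma * a ^ 2 ≤ N + h)
    (hb : N < mb * b ^ 2) (hb' : mb * b ^ 2 ≤ N + h)
    (hc : N < mc * c ^ 2) (hc' : mc * c ^ 2 ≤ N + h)
    (h1 : 24 * N * L ^ 3 < D ^ 4) (h2 : 4 * h * L < D ^ 2) (hca : c ≤ a + L) :
    3 * N * ((b - a) * (c - b)) ≤ 64 * h * D ^ 2 := by
  -- real versions
  have hDr : (0 : ℝ) < D := by exact_mod_cast hD
  have hA : (D : ℝ) ≤ a := by exact_mod_cast hDa
  have hAB : (a : ℝ) < b := by exact_mod_cast hab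
  have hBC : (b : ℝ) < c := by exact_mod_cast hbc
  have hC : (c : ℝ) ≤ 2 * D := by exact_mod_cast hcD
  have hCA : (c : ℝ) ≤ a + L := by exact_mod_cast hca
  have hN : (0 : ℝ) ≤ N := Nat.cast_nonneg _
  have hh : (0 : ℝ) ≤ h := Nat.cast_nonneg _
  have hL : (0 : ℝ) ≤ L := Nat.cast_nonneg _
  have hr1 : 24 * (N : ℝ) * L ^ 3 < D ^ 4 := by exact_mod_cast h1
  have hr2 : 4 * (h : ℝ) * L < D ^ 2 := by exact_mod_cast h2
  have hA0 : (0 : ℝ) < a := by linarith
  have hB0 : (0 : ℝ) < b := by linarith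
  have hC0 : (0 : ℝ) < c := by linarith
  have key : ∀ u mu : ℕ, (D : ℝ) ≤ u → N < mu * u ^ 2 → mu * u ^ 2 ≤ N + h →
      0 < (mu : ℝ) - N / (u : ℝ) ^ 2 ∧ (mu : ℝ) - N / (u : ℝ) ^ 2 ≤ h / (D : ℝ) ^ 2 := by
    intro u mu hu h3 h4
    have hu0 : (0 : ℝ) < u := by linarith
    have h3' : (N : ℝ) < mu * (u : ℝ) ^ 2 := by exact_mod_cast h3
    have h4' : (mu : ℝ) * (u : ℝ) ^ 2 ≤ N + h := by exact_mod_cast h4
    have e : (mu : ℝ) - N / (u : ℝ) ^ 2 = (mu * (u : ℝ) ^ 2 - N) / (u : ℝ) ^ 2 := by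
      field_simp
    rw [e]
    constructor
    · apply div_pos (by linarith) (by positivity)
    · calc (mu * (u : ℝ) ^ 2 - N) / (u : ℝ) ^ 2 ≤ h / (u : ℝ) ^ 2 := by
            apply div_le_div_of_nonneg_right (by linarith) (by positivity)
        _ ≤ h / (D : ℝ) ^ 2 := by
            apply div_le_div_of_nonneg_left hh (by positivity)
            exact pow_le_pow_left₀ hDr.le hu 2
  obtain ⟨ta0, ta1⟩ := key a ma hA ha ha'
  obtain ⟨tb0, tb1⟩ := key b mb (by linarith) hb hb'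
  obtain ⟨tc0, tc1⟩ := key c mc (by linarith) hc hc'
  set ta : ℝ := (ma : ℝ) - N / (a : ℝ) ^ 2 with hta
  set tb : ℝ := (mb : ℝ) - N / (b : ℝ) ^ 2 with htb
  set tc : ℝ := (mc : ℝ) - N / (c : ℝ) ^ 2 with htc
  set S : ℝ := h / (D : ℝ) ^ 2 with hS
  have hS0 : 0 ≤ S := by positivity
  -- the main term
  set G : ℝ := (b - a) * (c - a) * (c - b) * (N * (a * b + b * c + c * a) /
    ((a : ℝ) ^ 2 * b ^ 2 * c ^ 2)) with hG
  set E : ℝ := (b - a) * tc + (c - b) * ta - (c - a) * tb with hE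
  have hF : ((b : ℝ) - a) * (mc - ma) - (c - a) * (mb - ma) = G + E := by
    rw [hG, hE, hta, htb, htc]
    field_simp
    ring
  have hxs : ((b : ℝ) - a) * S + (c - b) * S = (c - a) * S := by ring
  have hE1 : E ≤ (c - a) * S := by
    rw [hE]
    have x1 := mul_le_mul_of_nonneg_left tc1 (by linarith : (0 : ℝ) ≤ b - a)
    have x2 := mul_le_mul_of_nonneg_left ta1 (by linarith : (0 : ℝ) ≤ c - b)
    have x3 := mul_nonneg (by linarith : (0 : ℝ) ≤ c - a) tb0.le
    linarith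
  have hE2 : -((c - a) * S) ≤ E := by
    rw [hE]
    have x1 := mul_le_mul_of_nonneg_left tb1 (by linarith : (0 : ℝ) ≤ c - a)
    have x2 := mul_nonneg (by linarith : (0 : ℝ) ≤ b - a) tc0.le
    have x3 := mul_nonneg (by linarith : (0 : ℝ) ≤ c - b) ta0.le
    linarith
  have hLS : (c - a) * S < 1 / 4 := by
    have h5 : (c - a) * S ≤ L * S := mul_le_mul_of_nonneg_right (by linarith) hS0
    have h6 : (L : ℝ) * S < 1 / 4 := by
      rw [hS, mul_div_assoc', div_lt_iff₀ (by positivity)]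
      linarith
    linarith
  have hprod : ((b : ℝ) - a) * (c - a) * (c - b) ≤ L ^ 3 := by
    have e1 : ((b : ℝ) - a) ≤ L := by linarith
    have e2 : ((c : ℝ) - a) ≤ L := by linarith
    have e3 : ((c : ℝ) - b) ≤ L := by linarith
    calc ((b : ℝ) - a) * (c - a) * (c - b) ≤ L * L * L := by
          apply mul_le_mul (mul_le_mul e1 e2 (by linarith) hL) e3 (by linarith) (by positivity)
      _ = (L : ℝ) ^ 3 := by ring
  have hratU : (N : ℝ) * (a * b + b * c + c * a) / ((a : ℝ) ^ 2 * b ^ 2 * c ^ 2) ≤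
      12 * N / (D : ℝ) ^ 4 := by
    rw [div_le_div_iff₀ (by positivity) (by positivity)]
    have e1 : (a * b + b * c + c * a : ℝ) ≤ 12 * D ^ 2 := by
      have hb2 : (b : ℝ) ≤ 2 * D := by linarith
      have ha2 : (a : ℝ) ≤ 2 * D := by linarith
      nlinarith [mul_le_mul ha2 hb2 hB0.le (by positivity), mul_le_mul hb2 hC hC0.le (by positivity),
        mul_le_mul hC ha2 hA0.le (by positivity)]
    have e2 : (D : ℝ) ^ 6 ≤ (a : ℝ) ^ 2 * b ^ 2 * c ^ 2 := by
      have : (D : ℝ) ^ 6 = (D : ℝ) ^ 2 * D ^ 2 * D ^ 2 := by ring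
      rw [this]
      have q1 : (D : ℝ) ^ 2 ≤ (a : ℝ) ^ 2 := pow_le_pow_left₀ hDr.le hA 2
      have q2 : (D : ℝ) ^ 2 ≤ (b : ℝ) ^ 2 := pow_le_pow_left₀ hDr.le (by linarith) 2
      have q3 : (D : ℝ) ^ 2 ≤ (c : ℝ) ^ 2 := pow_le_pow_left₀ hDr.le (by linarith) 2
      exact mul_le_mul (mul_le_mul q1 q2 (by positivity) (by positivity)) q3 (by positivity)
        (by positivity)
    calc (N : ℝ) * (a * b + b * c + c * a) * (D : ℝ) ^ 4 ≤ N * (12 * D ^ 2) * D ^ 4 := by
          apply mul_le_mul_of_nonneg_right _ (by positivity)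
          exact mul_le_mul_of_nonneg_left e1 hN
      _ = 12 * N * (D : ℝ) ^ 6 := by ring
      _ ≤ 12 * N * ((a : ℝ) ^ 2 * b ^ 2 * c ^ 2) := mul_le_mul_of_nonneg_left e2 (by positivity)
  have hratL : 3 * (N : ℝ) / (64 * (D : ℝ) ^ 4) ≤
      (N : ℝ) * (a * b + b * c + c * a) / ((a : ℝ) ^ 2 * b ^ 2 * c ^ 2) := by
    have e : (N : ℝ) * (a * b + b * c + c * a) / ((a : ℝ) ^ 2 * b ^ 2 * c ^ 2) =
        N * (1 / ((a : ℝ) * b * c ^ 2) + 1 / ((a : ℝ) ^ 2 * b * c) + 1 / ((a : ℝ) * b ^ 2 * c)) := by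
      field_simp
    have hu : ∀ u v w z : ℝ, 0 < u → 0 < v → 0 < w → 0 < z → u ≤ 2 * D → v ≤ 2 * D → w ≤ 2 * D →
        z ≤ 2 * D → 1 / (16 * (D : ℝ) ^ 4) ≤ 1 / (u * v * w * z) := by
      intro u v w z hu hv hw hz h1 h2 h3 h4
      apply one_div_le_one_div_of_le (by positivity)
      calc u * v * w * z ≤ (2 * D) * (2 * D) * (2 * D) * (2 * D) := by
            apply mul_le_mul _ h4 hz.le (by positivity)
            apply mul_le_mul _ h3 hw.le (by positivity)
            exact mul_le_mul h1 h2 hv.le (by positivity)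
        _ = 16 * (D : ℝ) ^ 4 := by ring
    have hb2 : (b : ℝ) ≤ 2 * D := by linarith
    have ha2 : (a : ℝ) ≤ 2 * D := by linarith
    have e1 := hu a b c c hA0 hB0 hC0 hC0 ha2 hb2 hC hC
    have e2 := hu a a b c hA0 hA0 hB0 hC0 ha2 ha2 hb2 hC
    have e3 := hu a b b c hA0 hB0 hB0 hC0 ha2 hb2 hb2 hC
    rw [e]
    have e4 : 3 * (N : ℝ) / (64 * (D : ℝ) ^ 4) = N * (3 / 4 * (1 / (16 * (D : ℝ) ^ 4))) := by
      field_simp
      ring
    rw [e4]
    apply mul_le_mul_of_nonneg_left _ hN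
    have r1 : (a : ℝ) * b * c * c = a * b * c ^ 2 := by ring
    have r2 : (a : ℝ) * a * b * c = a ^ 2 * b * c := by ring
    have r3 : (a : ℝ) * b * b * c = a * b ^ 2 * c := by ring
    rw [r1] at e1
    rw [r2] at e2
    rw [r3] at e3
    have h0 : 0 ≤ 1 / (16 * (D : ℝ) ^ 4) := by positivity
    linarith
  have hG0 : 0 ≤ G := by
    rw [hG]
    apply mul_nonneg
    · apply mul_nonneg (mul_nonneg (by linarith) (by linarith)) (by linarith)
    · positivity
  have hG1 : G < 1 / 2 := by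
    have : G ≤ L ^ 3 * (12 * N / (D : ℝ) ^ 4) := by
      rw [hG]
      apply mul_le_mul hprod hratU (by positivity) (by positivity)
    have e : (L : ℝ) ^ 3 * (12 * N / (D : ℝ) ^ 4) < 1 / 2 := by
      rw [mul_div_assoc', div_lt_iff₀ (by positivity)]
      nlinarith
    linarith
  -- the integer vanishes
  have hz : ((b : ℤ) - a) * (mc - ma) - (c - a) * (mb - ma) = 0 := by
    have e1 : (((b : ℤ) - a) * (mc - ma) - (c - a) * (mb - ma) : ℤ) < 1 := by
      have : ((((b : ℤ) - a) * (mc - ma) - (c - a) * (mb - ma) : ℤ) : ℝ) < 1 := by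
        push_cast
        rw [hF]
        linarith
      exact_mod_cast this
    have e2 : -1 < (((b : ℤ) - a) * (mc - ma) - (c - a) * (mb - ma) : ℤ) := by
      have : (-1 : ℝ) < ((((b : ℤ) - a) * (mc - ma) - (c - a) * (mb - ma) : ℤ) : ℝ) := by
        push_cast
        rw [hF]
        linarith
      exact_mod_cast this
    omega
  have hz' : G + E = 0 := by
    rw [← hF]
    exact_mod_cast hz
  have hGE : G ≤ (c - a) * S := by linarith
  have h7 : ((b : ℝ) - a) * (c - b) * (3 * (N : ℝ) / (64 * (D : ℝ) ^ 4)) ≤ S := by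
    have e1 : (c - a : ℝ) * (((b : ℝ) - a) * (c - b) * (3 * (N : ℝ) / (64 * (D : ℝ) ^ 4))) ≤ G := by
      rw [hG]
      have : (c - a : ℝ) * (((b : ℝ) - a) * (c - b) * (3 * (N : ℝ) / (64 * (D : ℝ) ^ 4))) =
        ((b : ℝ) - a) * (c - a) * (c - b) * (3 * (N : ℝ) / (64 * (D : ℝ) ^ 4)) := by ring
      rw [this]
      apply mul_le_mul_of_nonneg_left hratL
      exact mul_nonneg (mul_nonneg (by linarith) (by linarith)) (by linarith)
    have e2 : (c - a : ℝ) * (((b : ℝ) - a) * (c - b) * (3 * (N : ℝ) / (64 * (D : ℝ) ^ 4))) ≤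
        (c - a) * S := e1.trans hGE
    exact le_of_mul_le_mul_left e2 (by linarith)
  have h8 : 3 * (N : ℝ) * (((b : ℝ) - a) * (c - b)) ≤ 64 * h * (D : ℝ) ^ 2 := by
    rw [hS] at h7
    have : ((b : ℝ) - a) * (c - b) * (3 * (N : ℝ) / (64 * (D : ℝ) ^ 4)) =
      (3 * (N : ℝ) * (((b : ℝ) - a) * (c - b)) ) / (64 * (D : ℝ) ^ 4) := by ring
    rw [this, div_le_div_iff₀ (by positivity) (by positivity)] at h7
    have e : (h : ℝ) * (64 * (D : ℝ) ^ 4) = (64 * h * (D : ℝ) ^ 2) * (D : ℝ) ^ 2 := by ring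
    rw [e] at h7
    exact le_of_mul_le_mul_right h7 (by positivity)
  have h9 : ((3 * N * ((b - a) * (c - b)) : ℕ) : ℝ) ≤ ((64 * h * D ^ 2 : ℕ) : ℝ) := by
    push_cast [Nat.cast_sub hab.le, Nat.cast_sub hbc.le]
    exact h8
  exact_mod_cast h9

/-- one block -/
lemma block (N h D L M : ℕ) (hN : 0 < N) (hD : 0 < D) (S : Finset ℕ)
    (hS : ∀ d ∈ S, D ≤ d ∧ d < 2 * D ∧ ∃ m, N < m * d ^ 2 ∧ m * d ^ 2 ≤ N + h)
    (hdiff : ∀ a ∈ S, ∀ c ∈ S, c ≤ a + L)
    (h1 : 24 * N * L ^ 3 < D ^ 4) (h2 : 4 * h * L < D ^ 2) (hM : 64 * h * D ^ 2 ≤ 3 * N * M) :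
    S.card ≤ M + 2 := by
  by_contra hcon
  push Not at hcon
  have hne : S.Nonempty := Finset.card_pos.mp (by omega)
  set a := S.min' hne with ha
  have haS : a ∈ S := S.min'_mem hne
  have hcard : (S.erase a).card = S.card - 1 := Finset.card_erase_of_mem haS
  have hne2 : (S.erase a).Nonempty := Finset.card_pos.mp (by omega)
  set b := (S.erase a).min' hne2 with hb
  have hbS' : b ∈ S.erase a := (S.erase a).min'_mem hne2
  have hbS : b ∈ S := Finset.mem_of_mem_erase hbS'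
  have hab : a < b := by
    have h3 : a ≤ b := S.min'_le b hbS
    have h4 : b ≠ a := Finset.ne_of_mem_erase hbS'
    omega
  set c := S.max' hne with hc
  have hcS : c ∈ S := S.max'_mem hne
  have hsub : S.erase a ⊆ Finset.Icc b c := by
    intro d hd
    rw [Finset.mem_Icc]
    exact ⟨(S.erase a).min'_le d hd, S.le_max' d (Finset.mem_of_mem_erase hd)⟩
  have hcard2 := Finset.card_le_card hsub
  rw [Nat.card_Icc, hcard] at hcard2
  have hbc : b < c := by omega
  have hcb : M < c - b := by omega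
  obtain ⟨ha1, ha2, ma, ha3, ha4⟩ := hS a haS
  obtain ⟨hb1, hb2, mb, hb3, hb4⟩ := hS b hbS
  obtain ⟨hc1, hc2, mc, hc3, hc4⟩ := hS c hcS
  have h3 := three N h D L a b c ma mb mc hab hbc ha1 (by omega) hD ha3 ha4 hb3 hb4 hc3 hc4 h1 h2
    (hdiff a haS c hcS)
  have h4 : 3 * N * ((b - a) * (c - b)) ≤ 3 * N * M := h3.trans hM
  have h5 : (b - a) * (c - b) ≤ M := Nat.le_of_mul_le_mul_left h4 (by omega)
  have h6 : 1 * (c - b) ≤ (b - a) * (c - b) := Nat.mul_le_mul_right _ (by omega)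
  omega

/-- `d` has the property that some multiple of `d ^ 2` lies in `(N, N + h]` -/
def Hit (N h d : ℕ) : Prop := ∃ m, N < m * d ^ 2 ∧ m * d ^ 2 ≤ N + h

/-- one dyadic range -/
lemma dyad (N h D0 M j : ℕ) (hN : 0 < N) (hD : 0 < D0) (S : Finset ℕ)
    (hS : ∀ d ∈ S, Hit N h d) (hS2 : ∀ d ∈ S, 2 ^ j * D0 ≤ d ∧ d < 2 ^ (j + 1) * D0)
    (h1 : 24 * N < D0 ^ 4) (h2 : 4 * h < D0 ^ 2) (hM : 64 * h * (2 ^ j * D0) ^ 2 ≤ 3 * N * M) :
    S.card ≤ (M + 2) * D0 := by
  have h2j : 0 < 2 ^ j := by positivity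
  have hmaps : ∀ d ∈ S, d / 2 ^ j ∈ Finset.Ico D0 (2 * D0) := by
    intro d hd
    obtain ⟨h3, h4⟩ := hS2 d hd
    rw [Finset.mem_Ico]
    constructor
    · rw [Nat.le_div_iff_mul_le h2j]
      linarith [mul_comm D0 (2 ^ j)]
    · rw [Nat.div_lt_iff_lt_mul h2j]
      calc d < 2 ^ (j + 1) * D0 := h4
        _ = 2 * D0 * 2 ^ j := by ring
  have := Finset.card_le_mul_card_image_of_maps_to hmaps (M + 2) (by
    intro q hq
    apply block N h (2 ^ j * D0) (2 ^ j) M hN (by positivity)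
    · intro d hd
      rw [Finset.mem_filter] at hd
      obtain ⟨h3, h4⟩ := hS2 d hd.1
      refine ⟨h3, ?_, hS d hd.1⟩
      calc d < 2 ^ (j + 1) * D0 := h4
        _ = 2 * (2 ^ j * D0) := by ring
    · intro a ha c hc
      rw [Finset.mem_filter] at ha hc
      have e1 := Nat.div_mul_le_self a (2 ^ j)
      have e2 := Nat.lt_div_mul_add (a := c) h2j
      rw [ha.2] at e1
      rw [hc.2] at e2
      omega
    · calc 24 * N * (2 ^ j) ^ 3 < D0 ^ 4 * (2 ^ j) ^ 3 :=
            Nat.mul_lt_mul_of_pos_right h1 (by positivity)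
        _ ≤ D0 ^ 4 * (2 ^ j) ^ 4 := by
            apply Nat.mul_le_mul_left
            exact Nat.pow_le_pow_right h2j (by norm_num)
        _ = (2 ^ j * D0) ^ 4 := by ring
    · calc 4 * h * 2 ^ j < D0 ^ 2 * 2 ^ j := Nat.mul_lt_mul_of_pos_right h2 h2j
        _ ≤ D0 ^ 2 * (2 ^ j) ^ 2 := by
            apply Nat.mul_le_mul_left
            exact Nat.le_self_pow (by norm_num) _
        _ = (2 ^ j * D0) ^ 2 := by ring
    · exact hM)
  rw [Nat.card_Ico] at this
  have e : 2 * D0 - D0 = D0 := by omega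
  rwa [e] at this

/-- very large `d` -/
lemma large (N h D1 : ℕ) (hD1 : 0 < D1) (hh : h ≤ 2 * D1) (S : Finset ℕ)
    (hS : ∀ d ∈ S, Hit N h d) (hS2 : ∀ d ∈ S, D1 ≤ d) :
    S.card ≤ (N + h) / D1 ^ 2 := by
  have hmaps : ∀ d ∈ S, (N + h) / d ^ 2 ∈ Finset.Icc 1 ((N + h) / D1 ^ 2) := by
    intro d hd
    obtain ⟨m, hm1, hm2⟩ := hS d hd
    have hd1 := hS2 d hd
    have hd0 : 0 < d ^ 2 := by
      have : 0 < d := by omega
      positivity
    rw [Finset.mem_Icc]
    constructor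
    · rw [Nat.le_div_iff_mul_le hd0]
      have : m ≠ 0 := by
        rintro rfl
        omega
      calc 1 * d ^ 2 ≤ m * d ^ 2 := Nat.mul_le_mul_right _ (by omega)
        _ ≤ N + h := hm2
    · apply Nat.div_le_div_left _ (by positivity)
      exact Nat.pow_le_pow_left hd1 2
  have hinj : Set.InjOn (fun d => (N + h) / d ^ 2) S := by
    have key : ∀ d ∈ S, ∀ e ∈ S, d < e → (N + h) / d ^ 2 ≠ (N + h) / e ^ 2 := by
      intro d hd e he hlt heq
      obtain ⟨m, hm1, hm2⟩ := hS d hd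
      have hd1 := hS2 d hd
      have hd0 : 0 < d ^ 2 := by
        have : 0 < d := by omega
        positivity
      have e1 : m ≤ (N + h) / d ^ 2 := by
        rw [Nat.le_div_iff_mul_le hd0]
        exact hm2
      have e2 : (N + h) / e ^ 2 * e ^ 2 ≤ N + h := Nat.div_mul_le_self _ _
      rw [← heq] at e2
      have e3 : N < (N + h) / d ^ 2 * d ^ 2 := lt_of_lt_of_le hm1 (Nat.mul_le_mul_right _ e1)
      set q := (N + h) / d ^ 2 with hq
      have e4 : d ^ 2 + 2 * d + 1 ≤ e ^ 2 := by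
        calc d ^ 2 + 2 * d + 1 = (d + 1) ^ 2 := by ring
          _ ≤ e ^ 2 := Nat.pow_le_pow_left (by omega) 2
      have e5 : 1 ≤ q := by
        rcases Nat.eq_zero_or_pos q with h0 | h0
        · rw [h0] at e3
          omega
        · exact h0
      have e6 : q * d ^ 2 + (2 * d + 1) ≤ q * e ^ 2 := by
        calc q * d ^ 2 + (2 * d + 1) ≤ q * d ^ 2 + q * (2 * d + 1) := by
              have : 1 * (2 * d + 1) ≤ q * (2 * d + 1) := Nat.mul_le_mul_right _ e5
              omega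
          _ = q * (d ^ 2 + 2 * d + 1) := by ring
          _ ≤ q * e ^ 2 := Nat.mul_le_mul_left _ e4
      omega
    intro d hd e he heq
    rcases lt_trichotomy d e with h | h | h
    · exact absurd heq (key d hd e he h)
    · exact h
    · exact absurd heq.symm (key e he d hd h)
  have := Finset.card_le_card_of_injOn (fun d => (N + h) / d ^ 2) hmaps hinj
  rwa [Nat.card_Icc, Nat.add_sub_cancel] at this

/-- few large `d` with a multiple of `d ^ 2` in `(N, N + h]` -/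
theorem few (N h D0 M J : ℕ) (hN : 0 < N) (hD : 0 < D0) (S : Finset ℕ)
    (hS : ∀ d ∈ S, Hit N h d) (hS2 : ∀ d ∈ S, D0 ≤ d)
    (h1 : 24 * N < D0 ^ 4) (h2 : 4 * h < D0 ^ 2) (hM : 64 * h * (2 ^ J * D0) ^ 2 ≤ 3 * N * M)
    (h3 : h ≤ 2 * (2 ^ J * D0)) :
    S.card ≤ J * ((M + 2) * D0) + (N + h) / (2 ^ J * D0) ^ 2 := by
  have hcov : S ⊆ (Finset.range J).biUnion (fun j => S.filter (fun d => 2 ^ j * D0 ≤ d ∧
      d < 2 ^ (j + 1) * D0)) ∪ S.filter (fun d => 2 ^ J * D0 ≤ d) := by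
    intro d hd
    by_cases hbig : 2 ^ J * D0 ≤ d
    · apply Finset.mem_union_right
      exact Finset.mem_filter.mpr ⟨hd, hbig⟩
    · apply Finset.mem_union_left
      push Not at hbig
      rw [Finset.mem_biUnion]
      -- the least `i` with `d < 2 ^ i D0`
      have hex : ∃ i, d < 2 ^ i * D0 := ⟨J, hbig⟩
      classical
      set i := Nat.find hex with hi
      have hi1 : d < 2 ^ i * D0 := Nat.find_spec hex
      have hi2 : i ≤ J := Nat.find_min' hex hbig
      have hi0 : i ≠ 0 := by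
        intro h0
        rw [h0] at hi1
        have := hS2 d hd
        omega
      obtain ⟨k, hk⟩ := Nat.exists_eq_succ_of_ne_zero hi0
      refine ⟨k, Finset.mem_range.mpr (by omega), Finset.mem_filter.mpr ⟨hd, ?_, ?_⟩⟩
      · by_contra hlt
        push Not at hlt
        have := Nat.find_min' hex hlt
        omega
      · rw [hk] at hi1
        exact hi1
  have hc1 := Finset.card_le_card hcov
  have hc2 := Finset.card_union_le ((Finset.range J).biUnion (fun j => S.filter (fun d =>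
    2 ^ j * D0 ≤ d ∧ d < 2 ^ (j + 1) * D0))) (S.filter (fun d => 2 ^ J * D0 ≤ d))
  have hc3 : ((Finset.range J).biUnion (fun j => S.filter (fun d =>
    2 ^ j * D0 ≤ d ∧ d < 2 ^ (j + 1) * D0))).card ≤ J * ((M + 2) * D0) := by
    refine Finset.card_biUnion_le.trans ?_
    calc ∑ j ∈ Finset.range J, (S.filter (fun d => 2 ^ j * D0 ≤ d ∧ d < 2 ^ (j + 1) * D0)).card
        ≤ ∑ _j ∈ Finset.range J, (M + 2) * D0 := by
          apply Finset.sum_le_sum
          intro j hj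
          rw [Finset.mem_range] at hj
          apply dyad N h D0 M j hN hD _ (fun d hd => hS d (Finset.mem_filter.mp hd).1)
            (fun d hd => (Finset.mem_filter.mp hd).2) h1 h2
          refine le_trans ?_ hM
          apply Nat.mul_le_mul_left
          apply Nat.pow_le_pow_left
          apply Nat.mul_le_mul_right
          exact Nat.pow_le_pow_right (by norm_num) hj.le
      _ = J * ((M + 2) * D0) := by rw [Finset.sum_const, Finset.card_range, smul_eq_mul]
  have hc4 := large N h (2 ^ J * D0) (by positivity) h3 (S.filter (fun d => 2 ^ J * D0 ≤ d))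
    (fun d hd => hS d (Finset.mem_filter.mp hd).1) (fun d hd => (Finset.mem_filter.mp hd).2)
  omega

end Pool.Agent.TH827.CN
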