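import Pool.Agent.TH827.CN.Final

set_option autoImplicit false
set_option maxHeartbeats 4000000

/-! # Congruent numbers in short intervals, exponent `2/3 + ε` -/

namespace Pool.Agent.TH827.CN

open Finset Filter Asymptotics

lemma cset_finite (j : ℕ) (X H : ℝ) : (CSet j X H).Finite := by
  apply (Set.finite_Iic ⌊X + H⌋₊).subset
  intro n hn
  exact Nat.le_floor hn.2.1

lemma cset_mono (j : ℕ) (X X' H H' : ℝ) (h1 : X ≤ X') (h2 : X' + H' ≤ X + H) :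
    CSet j X' H' ⊆ CSet j X H := by
  intro n hn
  exact ⟨h1.trans hn.1, hn.2.1.trans h2, hn.2.2⟩

theorem per_class (j : ℕ) (hj : j = 1 ∨ j = 2 ∨ j = 3 ∨ j = 5 ∨ j = 6 ∨ j = 7) (θ : ℝ)
    (hθ : 2 / 3 < θ) : ∃ C : ℝ, 0 < C ∧ ∀ X : ℝ, 1 ≤ X →
      X ^ (1 / 12 : ℝ) ≤ ((CSet j X (C * X ^ θ)).ncard : ℝ) := by
  set η : ℝ := min (3 * (θ - 2 / 3)) (1 / 24) with hη
  have hη0 : 0 < η := lt_min (by linarith) (by norm_num)
  have hη1 : η ≤ 1 / 24 := min_le_right _ _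
  have hη2 : η ≤ 3 * (θ - 2 / 3) := min_le_left _ _
  obtain ⟨C0, hC0, hev⟩ := large_param j hj η hη0 hη1
  rw [eventually_atTop] at hev
  obtain ⟨ξ0, hξ0⟩ := hev
  obtain ⟨hs1, hs2⟩ := sqrt3_bounds
  have hs0 : (0 : ℝ) < √3 := by positivity
  set X1 : ℝ := max 1 (max ξ0 1 ^ 6) with hX1
  have hX1a : 1 ≤ X1 := le_max_left _ _
  have hlarge : ∀ X : ℝ, X1 ≤ X →
      X ^ (1 / 12 : ℝ) ≤ ((CSet j X (3 * C0 * X ^ θ)).ncard : ℝ) := by
    intro X hX
    have hX0 : 0 < X := by linarith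
    have hX1' : 1 ≤ X := by linarith
    set Y : ℝ := 3 * √3 * X / 2 with hY
    have hY0 : 0 < Y := by positivity
    have hYX : X ≤ Y := by
      rw [hY]
      nlinarith
    have hY3 : Y ≤ 3 * X := by
      rw [hY]
      nlinarith
    set ξ : ℝ := Y ^ (1 / 6 : ℝ) with hξ
    have hξp : 0 < ξ := by positivity
    have hξ6 : ξ ^ 6 = Y := by
      rw [hξ, ← Real.rpow_natCast (Y ^ (1 / 6 : ℝ)) 6, ← Real.rpow_mul hY0.le]
      norm_num
    have hξge : ξ0 ≤ ξ := by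
      have e1 : (max ξ0 1) ^ 6 ≤ ξ ^ 6 := by
        rw [hξ6]
        exact (le_max_right _ _).trans (hX.trans hYX)
      have e2 : max ξ0 1 ≤ ξ := le_of_pow_le_pow_left₀ (by norm_num) hξp.le e1
      exact (le_max_left _ _).trans e2
    obtain ⟨A, hA1, hA2⟩ := hξ0 ξ hξge
    have hXeq : 2 * ξ ^ 6 / (3 * √3) = X := by
      rw [hξ6, hY]
      field_simp
    rw [hXeq] at hA2
    have hpow : ξ ^ (4 + 2 * η) ≤ 3 * X ^ θ := by
      have e1 : ξ ^ (4 + 2 * η) = Y ^ ((2 + η) / 3) := by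
        rw [hξ, ← Real.rpow_mul hY0.le]
        congr 1
        ring
      have e2 : Y ^ ((2 + η) / 3) ≤ (3 * X) ^ ((2 + η) / 3) :=
        Real.rpow_le_rpow hY0.le hY3 (by positivity)
      have e3 : (3 * X) ^ ((2 + η) / 3) = 3 ^ ((2 + η) / 3) * X ^ ((2 + η) / 3) :=
        Real.mul_rpow (by norm_num) hX0.le
      have e4 : (3 : ℝ) ^ ((2 + η) / 3) ≤ 3 ^ (1 : ℝ) :=
        Real.rpow_le_rpow_of_exponent_le (by norm_num) (by linarith)
      rw [Real.rpow_one] at e4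
      have e5 : X ^ ((2 + η) / 3) ≤ X ^ θ :=
        Real.rpow_le_rpow_of_exponent_le hX1' (by linarith)
      rw [e1]
      refine e2.trans ?_
      rw [e3]
      exact mul_le_mul e4 e5 (by positivity) (by norm_num)
    have hsub : (A : Set ℕ) ⊆ CSet j X (3 * C0 * X ^ θ) := by
      intro n hn
      apply cset_mono j X X (3 * C0 * X ^ θ) (C0 * ξ ^ (4 + 2 * η)) le_rfl _ (hA2 n hn)
      have := mul_le_mul_of_nonneg_left hpow hC0.le
      linarith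
    have hcard : A.card ≤ (CSet j X (3 * C0 * X ^ θ)).ncard := by
      rw [← Set.ncard_coe_finset]
      exact Set.ncard_le_ncard hsub (cset_finite _ _ _)
    have h12 : X ^ (1 / 12 : ℝ) ≤ ξ ^ (1 / 2 : ℝ) := by
      rw [hξ, ← Real.rpow_mul hY0.le]
      have : (1 / 6 : ℝ) * (1 / 2) = 1 / 12 := by norm_num
      rw [this]
      exact Real.rpow_le_rpow hX0.le hYX (by norm_num)
    calc X ^ (1 / 12 : ℝ) ≤ ξ ^ (1 / 2 : ℝ) := h12
      _ ≤ A.card := hA1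
      _ ≤ _ := by exact_mod_cast hcard
  refine ⟨X1 + 3 * C0 * X1 ^ θ + 3 * C0, by positivity, ?_⟩
  intro X hX
  have hX0 : 0 < X := by linarith
  have hXθ : 1 ≤ X ^ θ := Real.one_le_rpow hX (by linarith)
  by_cases hXX : X1 ≤ X
  · refine (hlarge X hXX).trans ?_
    have : (CSet j X (3 * C0 * X ^ θ)).ncard ≤
        (CSet j X ((X1 + 3 * C0 * X1 ^ θ + 3 * C0) * X ^ θ)).ncard := by
      apply Set.ncard_le_ncard _ (cset_finite _ _ _)
      apply cset_mono j X X _ _ le_rfl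
      have : 0 ≤ (X1 + 3 * C0 * X1 ^ θ) * X ^ θ := by positivity
      linarith
    exact_mod_cast this
  · push Not at hXX
    have e1 : X ^ (1 / 12 : ℝ) ≤ X1 ^ (1 / 12 : ℝ) := Real.rpow_le_rpow hX0.le hXX.le (by norm_num)
    refine e1.trans ((hlarge X1 le_rfl).trans ?_)
    have : (CSet j X1 (3 * C0 * X1 ^ θ)).ncard ≤
        (CSet j X ((X1 + 3 * C0 * X1 ^ θ + 3 * C0) * X ^ θ)).ncard := by
      apply Set.ncard_le_ncard _ (cset_finite _ _ _)
      apply cset_mono j X X1 _ _ hXX.le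
      have h5 : 0 ≤ X1 + 3 * C0 * X1 ^ θ + 3 * C0 := by positivity
      have h6 := mul_le_mul_of_nonneg_left hXθ h5
      linarith
    exact_mod_cast this

theorem all_classes (θ : ℝ) (hθ : 2 / 3 < θ) : ∃ C : ℝ, 0 < C ∧ ∀ X : ℝ, 1 ≤ X → ∀ j : ℕ,
    (j = 1 ∨ j = 2 ∨ j = 3 ∨ j = 5 ∨ j = 6 ∨ j = 7) →
      X ^ (1 / 12 : ℝ) ≤ ((CSet j X (C * X ^ θ)).ncard : ℝ) := by
  obtain ⟨C1, h1, H1⟩ := per_class 1 (by norm_num) θ hθ
  obtain ⟨C2, h2, H2⟩ := per_class 2 (by norm_num) θ hθ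
  obtain ⟨C3, h3, H3⟩ := per_class 3 (by norm_num) θ hθ
  obtain ⟨C5, h5, H5⟩ := per_class 5 (by norm_num) θ hθ
  obtain ⟨C6, h6, H6⟩ := per_class 6 (by norm_num) θ hθ
  obtain ⟨C7, h7, H7⟩ := per_class 7 (by norm_num) θ hθ
  refine ⟨C1 + C2 + C3 + C5 + C6 + C7, by positivity, ?_⟩
  intro X hX j hj
  have hXp : 0 < X := by linarith
  have hXθ : 0 < X ^ θ := by positivity
  have key : ∀ i C : ℝ, ∀ j : ℕ, C ≤ C1 + C2 + C3 + C5 + C6 + C7 →
      (X ^ (1 / 12 : ℝ) ≤ ((CSet j X (C * X ^ θ)).ncard : ℝ)) →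
      X ^ (1 / 12 : ℝ) ≤ ((CSet j X ((C1 + C2 + C3 + C5 + C6 + C7) * X ^ θ)).ncard : ℝ) := by
    intro _ C j hC hle
    refine hle.trans ?_
    have : (CSet j X (C * X ^ θ)).ncard ≤
        (CSet j X ((C1 + C2 + C3 + C5 + C6 + C7) * X ^ θ)).ncard := by
      apply Set.ncard_le_ncard _ (cset_finite _ _ _)
      apply cset_mono j X X _ _ le_rfl
      have := mul_le_mul_of_nonneg_right hC hXθ.le
      linarith
    exact_mod_cast this
  rcases hj with rfl | rfl | rfl | rfl | rfl | rfl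
  · exact key 0 C1 1 (by linarith) (H1 X hX)
  · exact key 0 C2 2 (by linarith) (H2 X hX)
  · exact key 0 C3 3 (by linarith) (H3 X hX)
  · exact key 0 C5 5 (by linarith) (H5 X hX)
  · exact key 0 C6 6 (by linarith) (H6 X hX)
  · exact key 0 C7 7 (by linarith) (H7 X hX)

end Pool.Agent.TH827.CN
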