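import Pool.Agent.TH827.CN.Res

set_option autoImplicit false
set_option maxHeartbeats 4000000

/-! # The window near the maximum of `b (x ^ 4 - b ^ 2)` -/

namespace Pool.Agent.TH827.CN

open Finset

lemma sqrt3_bounds : (1.7 : ℝ) < √3 ∧ √3 < 1.75 := by
  constructor
  · rw [Real.lt_sqrt (by norm_num)]
    norm_num
  · rw [Real.sqrt_lt' (by norm_num)]
    norm_num

/-- the real window -/
lemma interval (x ξ : ℝ) (hξ0 : 0 < ξ) (hx : ξ + 1 ≤ x) (hr : 3 * x ^ 5 ≤ 4 * ξ ^ 5) :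
    ∃ β : ℝ, 0 ≤ β ∧ β ≤ x ^ 2 / √3 ∧ (x ^ 2 / √3 - β) ^ 2 ≤ 2 * (x - ξ) * x ^ 3 ∧
      x ^ 3 ≤ (x ^ 2 / √3 - β) ^ 2 ∧ ∀ b : ℝ, β ≤ b → b ≤ x ^ 2 / √3 →
        2 * ξ ^ 6 / (3 * √3) ≤ b * (x ^ 4 - b ^ 2) ∧
        b * (x ^ 4 - b ^ 2) ≤ 2 * ξ ^ 6 / (3 * √3) +
          6 * (x ^ 2 / √3) * (x ^ 2 / √3 - β) * (b - β) := by
  have hs0 : (0 : ℝ) < √3 := by positivity
  have hs2 : √3 ^ 2 = (3 : ℝ) := Real.sq_sqrt (by norm_num)
  have hx0 : 0 < x := by linarith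
  set B : ℝ := x ^ 2 / √3 with hB
  set X : ℝ := 2 * ξ ^ 6 / (3 * √3) with hX
  have hB0 : 0 < B := by positivity
  have hsB : √3 * B = x ^ 2 := by rw [hB]; field_simp
  have hB3 : 3 * B ^ 2 = x ^ 4 := by
    calc 3 * B ^ 2 = √3 ^ 2 * B ^ 2 := by rw [hs2]
      _ = (√3 * B) ^ 2 := by ring
      _ = x ^ 4 := by rw [hsB]; ring
  have hX0 : 0 ≤ X := by positivity
  have hpow : ξ ^ 6 ≤ x ^ 6 := pow_le_pow_left₀ hξ0.le (by linarith) 6
  have h2B : 2 * B ^ 3 = 2 * x ^ 6 / (3 * √3) := by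
    rw [eq_div_iff (by positivity)]
    calc 2 * B ^ 3 * (3 * √3) = 2 * (3 * B ^ 2) * (√3 * B) := by ring
      _ = 2 * x ^ 6 := by rw [hB3, hsB]; ring
  have hXB : X ≤ 2 * B ^ 3 := by
    rw [h2B, hX]
    apply div_le_div_of_nonneg_right (by linarith) (by positivity)
  have hcont : ContinuousOn (fun b : ℝ => b * (x ^ 4 - b ^ 2)) (Set.Icc 0 B) := by fun_prop
  have hivt := intermediate_value_Icc hB0.le hcont
  have hmem : X ∈ Set.Icc ((fun b : ℝ => b * (x ^ 4 - b ^ 2)) 0)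
      ((fun b : ℝ => b * (x ^ 4 - b ^ 2)) B) := by
    constructor
    · simpa using hX0
    · show X ≤ B * (x ^ 4 - B ^ 2)
      rw [← hB3]
      calc X ≤ 2 * B ^ 3 := hXB
        _ = B * (3 * B ^ 2 - B ^ 2) := by ring
  obtain ⟨β, ⟨hβ0, hβB⟩, hfβ⟩ := hivt hmem
  have hfβ' : β * (x ^ 4 - β ^ 2) = X := hfβ
  have hid : (B - β) ^ 2 * (2 * B + β) = 2 * B ^ 3 - X := by
    rw [← hfβ', ← hB3]
    ring
  -- factorisation of `x ^ 6 - ξ ^ 6`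
  have hD : 2 * B ^ 3 - X = 2 * (x ^ 6 - ξ ^ 6) / (3 * √3) := by
    rw [h2B, hX]
    ring
  have hfac : x ^ 6 - ξ ^ 6 = (x - ξ) * (x ^ 5 + x ^ 4 * ξ + x ^ 3 * ξ ^ 2 + x ^ 2 * ξ ^ 3 +
      x * ξ ^ 4 + ξ ^ 5) := by ring
  have hξx : ξ ≤ x := by linarith
  have pw : ∀ k : ℕ, ξ ^ k ≤ x ^ k := fun k => pow_le_pow_left₀ hξ0.le hξx k
  have hup : x ^ 6 - ξ ^ 6 ≤ 6 * (x - ξ) * x ^ 5 := by
    rw [hfac]
    have : x ^ 5 + x ^ 4 * ξ + x ^ 3 * ξ ^ 2 + x ^ 2 * ξ ^ 3 + x * ξ ^ 4 + ξ ^ 5 ≤ 6 * x ^ 5 := by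
      have a1 : x ^ 4 * ξ ≤ x ^ 4 * x := mul_le_mul_of_nonneg_left hξx (by positivity)
      have a2 : x ^ 3 * ξ ^ 2 ≤ x ^ 3 * x ^ 2 := mul_le_mul_of_nonneg_left (pw 2) (by positivity)
      have a3 : x ^ 2 * ξ ^ 3 ≤ x ^ 2 * x ^ 3 := mul_le_mul_of_nonneg_left (pw 3) (by positivity)
      have a4 : x * ξ ^ 4 ≤ x * x ^ 4 := mul_le_mul_of_nonneg_left (pw 4) (by positivity)
      have a5 := pw 5
      nlinarith
    calc (x - ξ) * _ ≤ (x - ξ) * (6 * x ^ 5) := mul_le_mul_of_nonneg_left this (by linarith)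
      _ = 6 * (x - ξ) * x ^ 5 := by ring
  have hlow : 6 * (x - ξ) * ξ ^ 5 ≤ x ^ 6 - ξ ^ 6 := by
    rw [hfac]
    have : 6 * ξ ^ 5 ≤ x ^ 5 + x ^ 4 * ξ + x ^ 3 * ξ ^ 2 + x ^ 2 * ξ ^ 3 + x * ξ ^ 4 + ξ ^ 5 := by
      have a1 : ξ ^ 4 * ξ ≤ x ^ 4 * ξ := mul_le_mul_of_nonneg_right (pw 4) hξ0.le
      have a2 : ξ ^ 3 * ξ ^ 2 ≤ x ^ 3 * ξ ^ 2 := mul_le_mul_of_nonneg_right (pw 3) (by positivity)
      have a3 : ξ ^ 2 * ξ ^ 3 ≤ x ^ 2 * ξ ^ 3 := mul_le_mul_of_nonneg_right (pw 2) (by positivity)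
      have a4 : ξ * ξ ^ 4 ≤ x * ξ ^ 4 := mul_le_mul_of_nonneg_right hξx (by positivity)
      have a5 := pw 5
      nlinarith
    calc 6 * (x - ξ) * ξ ^ 5 = (x - ξ) * (6 * ξ ^ 5) := by ring
      _ ≤ _ := mul_le_mul_of_nonneg_left this (by linarith)
  refine ⟨β, hβ0, hβB, ?_, ?_, ?_⟩
  · -- upper bound
    have h1 : (B - β) ^ 2 * (2 * B) ≤ 2 * (x ^ 6 - ξ ^ 6) / (3 * √3) := by
      rw [← hD, ← hid]
      apply mul_le_mul_of_nonneg_left (by linarith) (by positivity)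
    rw [le_div_iff₀ (by positivity)] at h1
    have h2 : (B - β) ^ 2 * (2 * B) * (3 * √3) = (B - β) ^ 2 * (6 * (√3 * B)) := by ring
    rw [h2, hsB] at h1
    have h3 : (B - β) ^ 2 * (6 * x ^ 2) ≤ (2 * (x - ξ) * x ^ 3) * (6 * x ^ 2) := by
      calc (B - β) ^ 2 * (6 * x ^ 2) ≤ 2 * (x ^ 6 - ξ ^ 6) := h1
        _ ≤ 2 * (6 * (x - ξ) * x ^ 5) := by linarith
        _ = (2 * (x - ξ) * x ^ 3) * (6 * x ^ 2) := by ring
    exact le_of_mul_le_mul_right h3 (by positivity)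
  · -- lower bound
    have h1 : 2 * (x ^ 6 - ξ ^ 6) / (3 * √3) ≤ (B - β) ^ 2 * (3 * B) := by
      rw [← hD, ← hid]
      apply mul_le_mul_of_nonneg_left (by linarith) (by positivity)
    rw [div_le_iff₀ (by positivity)] at h1
    have h2 : (B - β) ^ 2 * (3 * B) * (3 * √3) = (B - β) ^ 2 * (9 * (√3 * B)) := by ring
    rw [h2, hsB] at h1
    have h4 : 1 * ξ ^ 5 ≤ (x - ξ) * ξ ^ 5 := by
      apply mul_le_mul_of_nonneg_right (by linarith) (by positivity)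
    have h3 : x ^ 3 * (9 * x ^ 2) ≤ (B - β) ^ 2 * (9 * x ^ 2) := by
      calc x ^ 3 * (9 * x ^ 2) = 3 * (3 * x ^ 5) := by ring
        _ ≤ 3 * (4 * ξ ^ 5) := by linarith
        _ ≤ 2 * (6 * (x - ξ) * ξ ^ 5) := by nlinarith
        _ ≤ 2 * (x ^ 6 - ξ ^ 6) := by linarith
        _ ≤ _ := h1
    exact le_of_mul_le_mul_right h3 (by positivity)
  · intro b hb1 hb2
    have hdiff : b * (x ^ 4 - b ^ 2) = X + (b - β) * (3 * B ^ 2 - (b ^ 2 + b * β + β ^ 2)) := by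
      rw [← hfβ', ← hB3]
      ring
    have hb0 : 0 ≤ b := hβ0.trans hb1
    have q1 : b ^ 2 ≤ B ^ 2 := pow_le_pow_left₀ hb0 hb2 2
    have q2 : β ^ 2 ≤ B ^ 2 := pow_le_pow_left₀ hβ0 hβB 2
    have q3 : b * β ≤ B * B := mul_le_mul hb2 hβB hβ0 hB0.le
    have q4 : β ^ 2 ≤ b ^ 2 := pow_le_pow_left₀ hβ0 hb1 2
    have q5 : β * β ≤ b * β := mul_le_mul_of_nonneg_right hb1 hβ0
    constructor
    · rw [hdiff]
      have : 0 ≤ (b - β) * (3 * B ^ 2 - (b ^ 2 + b * β + β ^ 2)) := by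
        apply mul_nonneg (by linarith)
        nlinarith
      linarith
    · rw [hdiff]
      have e : 3 * B ^ 2 - (b ^ 2 + b * β + β ^ 2) ≤ 6 * B * (B - β) := by
        have : 3 * B ^ 2 - 3 * β ^ 2 ≤ 6 * B * (B - β) := by nlinarith [sq_nonneg (B - β)]
        nlinarith
      have := mul_le_mul_of_nonneg_left e (by linarith : (0 : ℝ) ≤ b - β)
      nlinarith

/-- strict monotonicity -/
lemma mono (x b c : ℝ) (hx : 0 < x) (hb : 0 ≤ b) (hbc : b < c) (hc : c ≤ x ^ 2 / √3) :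
    b * (x ^ 4 - b ^ 2) < c * (x ^ 4 - c ^ 2) := by
  have hs2 : √3 ^ 2 = (3 : ℝ) := Real.sq_sqrt (by norm_num)
  set B : ℝ := x ^ 2 / √3 with hB
  have hsB : √3 * B = x ^ 2 := by rw [hB]; field_simp
  have hB0 : 0 < B := by positivity
  have hB3 : 3 * B ^ 2 = x ^ 4 := by
    calc 3 * B ^ 2 = √3 ^ 2 * B ^ 2 := by rw [hs2]
      _ = (√3 * B) ^ 2 := by ring
      _ = x ^ 4 := by rw [hsB]; ring
  have h1 : c * (x ^ 4 - c ^ 2) - b * (x ^ 4 - b ^ 2) =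
      (c - b) * (3 * B ^ 2 - (c ^ 2 + c * b + b ^ 2)) := by
    rw [← hB3]; ring
  have h2 : 0 < 3 * B ^ 2 - (c ^ 2 + c * b + b ^ 2) := by
    have q1 : c ^ 2 ≤ B ^ 2 := pow_le_pow_left₀ (by linarith) hc 2
    have q2 : b ^ 2 < B ^ 2 := pow_lt_pow_left₀ (by linarith) hb (by norm_num)
    have q3 : c * b ≤ B * B := mul_le_mul hc (by linarith) hb hB0.le
    nlinarith
  have := mul_pos (by linarith : 0 < c - b) h2
  linarith

/-- the set of squarefree congruent numbers in a class in an interval -/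
def CSet (j : ℕ) (X H : ℝ) : Set ℕ := {n : ℕ | X ≤ n ∧ (n : ℝ) ≤ X + H ∧ Squarefree n ∧ n % 8 = j ∧
  ∃ r s t : ℚ, 0 < r ∧ 0 < s ∧ 0 < t ∧ r ^ 2 + s ^ 2 = t ^ 2 ∧ (n : ℚ) = r * s / 2}

open Classical in
/-- the core statement with all numerical hypotheses -/
theorem core (j : ℕ) (x0 b0 : ℕ)
    (hres : ∀ x b : ℕ, x ≡ x0 [MOD Q] → b ≡ b0 [MOD Q] → b ≤ x ^ 2 →
      (b * (x ^ 2 - b) * (x ^ 2 + b)) % 8 = j ∧
      ∀ p : ℕ, p.Prime → p ≤ 64 → ¬ p ^ 2 ∣ b * (x ^ 2 - b) * (x ^ 2 + b))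
    (ξ : ℝ) (x T D0 M J : ℕ) (hξ0 : 0 < ξ) (hxx0 : x ≡ x0 [MOD Q]) (hξx : ξ + 1 ≤ x)
    (hκ : 128 * ((x : ℝ) - ξ) ≤ x) (hx8 : 8 ≤ x)
    (hW : ((Q : ℝ) * (T + 1)) ^ 2 ≤ (x : ℝ) ^ 3)
    (hD : 0 < D0) (hT : T ≤ D0 ^ 2)
    (h1 : 48 * x ^ 2 < D0 ^ 4) (h2 : 4 * (Q * T) < D0 ^ 2)
    (hM : 512 * (Q * T) * (2 ^ J * D0) ^ 2 ≤ 3 * x ^ 2 * M) (h3 : Q * T ≤ 2 * (2 ^ J * D0))
    (hS : (∑ p ∈ x.primeFactors.filter (fun p => 64 < p), (1 : ℝ) / p) ≤ 1 / 16)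
    (hrest : 3 * ((D0 : ℝ) + (J * ((M + 2) * D0) + (2 * x ^ 2) / (2 ^ J * D0) ^ 2 : ℕ)) +
      x.primeFactors.card ≤ T / 4) :
    ∃ A : Finset ℕ, (T : ℝ) / 2 ≤ A.card ∧ ∀ n ∈ A, n ∈ CSet j (2 * ξ ^ 6 / (3 * √3))
      (6 * (x ^ 2 / √3) * √(2 * (x - ξ) * x ^ 3) * (Q * (T + 1))) := by
  have hx0 : (0 : ℝ) < x := by linarith
  have hxN : 0 < x := by omega
  obtain ⟨hs1, hs2⟩ := sqrt3_bounds
  have hs0 : (0 : ℝ) < √3 := by positivity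
  have hratio : 127 * (x : ℝ) ≤ 128 * ξ := by linarith
  have hr : 3 * (x : ℝ) ^ 5 ≤ 4 * ξ ^ 5 := by
    have e1 : (127 * (x : ℝ)) ^ 5 ≤ (128 * ξ) ^ 5 := pow_le_pow_left₀ (by positivity) hratio 5
    have e2 : (127 : ℝ) ^ 5 * (x : ℝ) ^ 5 ≤ 128 ^ 5 * ξ ^ 5 := by
      calc (127 : ℝ) ^ 5 * (x : ℝ) ^ 5 = (127 * (x : ℝ)) ^ 5 := by ring
        _ ≤ (128 * ξ) ^ 5 := e1
        _ = _ := by ring
    have h0 : (0 : ℝ) ≤ (x : ℝ) ^ 5 := by positivity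
    have e3 : (3 : ℝ) * 128 ^ 5 ≤ 4 * 127 ^ 5 := by norm_num
    nlinarith
  obtain ⟨β, hβ0, hβB, hup, hlow, hwin⟩ := interval x ξ hξ0 hξx hr
  set B : ℝ := (x : ℝ) ^ 2 / √3 with hB
  have hBup : B ≤ 0.6 * (x : ℝ) ^ 2 := by
    rw [hB, div_le_iff₀ hs0]
    nlinarith [sq_nonneg (x : ℝ)]
  have hBlow : (x : ℝ) ^ 2 / 2 ≤ B := by
    rw [hB, div_le_div_iff₀ (by norm_num) hs0]
    nlinarith [sq_nonneg (x : ℝ)]
  have hBβ : 0 ≤ B - β := by linarith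
  have hWB : (Q : ℝ) * (T + 1) ≤ B - β :=
    abs_le_of_sq_le_sq' (hW.trans hlow) hBβ |>.2
  have hβlow : 3 * (x : ℝ) ^ 2 / 8 ≤ β := by
    have e1 : (B - β) ^ 2 ≤ ((x : ℝ) ^ 2 / 8) ^ 2 := by
      calc (B - β) ^ 2 ≤ 2 * (x - ξ) * (x : ℝ) ^ 3 := hup
        _ ≤ x / 64 * (x : ℝ) ^ 3 := by
          apply mul_le_mul_of_nonneg_right (by linarith) (by positivity)
        _ = ((x : ℝ) ^ 2 / 8) ^ 2 := by ring
    have e2 := (abs_le_of_sq_le_sq' e1 (by positivity)).2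
    linarith
  -- the starting point
  have hQ0 := Q_pos
  obtain ⟨b, hb1, hb2, hb3⟩ : ∃ b : ℕ, β ≤ b ∧ (b : ℝ) < β + Q ∧ b ≡ b0 [MOD Q] := by
    have hQr : (0 : ℝ) < Q := by exact_mod_cast hQ0
    set m : ℕ := ⌈β⌉₊ with hm
    have hm1 : β ≤ m := Nat.le_ceil _
    have hm2 : (m : ℝ) < β + 1 := Nat.ceil_lt_add_one hβ0
    -- the residue of `b0 - m` mod `Q`
    set r : ℕ := (b0 + (Q - m % Q)) % Q with hr'
    have hrQ : r < Q := Nat.mod_lt _ hQ0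
    refine ⟨m + r, ?_, ?_, ?_⟩
    · push_cast
      have : (0 : ℝ) ≤ r := Nat.cast_nonneg _
      linarith
    · push_cast
      have : (r : ℝ) + 1 ≤ Q := by exact_mod_cast hrQ
      linarith
    · have hmQ : m % Q < Q := Nat.mod_lt _ hQ0
      have e1 : m + r ≡ m % Q + (b0 + (Q - m % Q)) [MOD Q] := by
        apply Nat.ModEq.add (Nat.mod_modEq m Q).symm
        rw [hr']
        exact Nat.mod_modEq _ _
      have e2 : m % Q + (b0 + (Q - m % Q)) = b0 + Q := by omega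
      rw [e2] at e1
      exact e1.trans (by simp [Nat.ModEq])
  have hbT : (b : ℝ) + Q * T ≤ B := by
    have : (Q : ℝ) * (T + 1) = Q * T + Q := by ring
    linarith
  have hbTn : (b + Q * T : ℕ) ≤ 0.6 * (x : ℝ) ^ 2 := by
    push_cast
    linarith
  have hx2r : (64 : ℝ) ≤ (x : ℝ) ^ 2 := by
    have : (8 : ℝ) ≤ x := by exact_mod_cast hx8
    nlinarith
  have hb3' : b + Q * T ≤ x ^ 2 := by
    have : ((b + Q * T : ℕ) : ℝ) ≤ ((x ^ 2 : ℕ) : ℝ) := by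
      push_cast at hbTn ⊢
      linarith
    exact_mod_cast this
  have hb3'' : b + Q * T < x ^ 2 := by
    have : ((b + Q * T : ℕ) : ℝ) < ((x ^ 2 : ℕ) : ℝ) := by
      push_cast at hbTn ⊢
      linarith
    exact_mod_cast this
  have hb1' : x ^ 2 ≤ 8 * (b - 1) := by
    have e1 : (3 * x ^ 2 : ℕ) ≤ 8 * b := by
      have : ((3 * x ^ 2 : ℕ) : ℝ) ≤ ((8 * b : ℕ) : ℝ) := by
        push_cast
        linarith
      exact_mod_cast this
    have e2 : 64 ≤ x ^ 2 := by exact_mod_cast hx2r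
    omega
  have hb0' : 0 < b := by
    have e2 : 64 ≤ x ^ 2 := by exact_mod_cast hx2r
    omega
  have hb2' : x ^ 2 ≤ 8 * (x ^ 2 - b - Q * T) := by
    have e1 : 8 * (b + Q * T) ≤ 7 * x ^ 2 := by
      have : ((8 * (b + Q * T) : ℕ) : ℝ) ≤ ((7 * x ^ 2 : ℕ) : ℝ) := by
        push_cast at hbTn ⊢
        nlinarith
      exact_mod_cast this
    omega
  have hcount := good_count x b Q T D0 M J Q_prime hQ0 hD hT hxN hb1' hb2' hb3' h1 h2 hM h3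
  set G := (range T).filter (fun t => Good x b Q t) with hG
  have hGcard : (T : ℝ) / 2 ≤ G.card := by
    have hT0 : (0 : ℝ) ≤ T := Nat.cast_nonneg _
    have e1 : (T : ℝ) * (∑ p ∈ x.primeFactors.filter (fun p => 64 < p), (1 : ℝ) / p) ≤
        T * (1 / 16) := mul_le_mul_of_nonneg_left hS hT0
    have e2 : 3 * ((T : ℝ) * (2 / 65) + D0 +
        (J * ((M + 2) * D0) + (2 * x ^ 2) / (2 ^ J * D0) ^ 2 : ℕ)) =
        3 * ((T : ℝ) * (2 / 65)) + 3 * ((D0 : ℝ) + (J * ((M + 2) * D0) +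
          (2 * x ^ 2) / (2 ^ J * D0) ^ 2 : ℕ)) := by ring
    rw [e2] at hcount
    linarith
  -- the numbers
  set F : ℕ → ℕ := fun t => (b + Q * t) * (x ^ 2 - (b + Q * t)) * (x ^ 2 + (b + Q * t)) with hF
  have hmonoT : ∀ t, t < T → Q * t + Q ≤ Q * T := by
    intro t ht
    calc Q * t + Q = Q * (t + 1) := by ring
      _ ≤ Q * T := Nat.mul_le_mul_left _ ht
  have hFr : ∀ t, t < T → ((F t : ℕ) : ℝ) = ((b : ℝ) + Q * t) * ((x : ℝ) ^ 4 -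
      ((b : ℝ) + Q * t) ^ 2) := by
    intro t ht
    have := hmonoT t ht
    rw [hF]
    simp only
    push_cast [Nat.cast_sub (by omega : b + Q * t ≤ x ^ 2)]
    ring
  have hrange : ∀ t, t < T → β ≤ (b : ℝ) + Q * t ∧ (b : ℝ) + Q * t ≤ B ∧
      (b : ℝ) + Q * t - β ≤ Q * (T + 1) := by
    intro t ht
    have h5 : ((Q * t + Q : ℕ) : ℝ) ≤ ((Q * T : ℕ) : ℝ) := by exact_mod_cast hmonoT t ht
    push_cast at h5
    have h6 : (0 : ℝ) ≤ Q * t := by positivity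
    have hQr : (0 : ℝ) < Q := by exact_mod_cast hQ0
    refine ⟨by linarith, by linarith, ?_⟩
    have : (Q : ℝ) * (T + 1) = Q * T + Q := by ring
    linarith
  have hinj : Set.InjOn F G := by
    have key : ∀ s ∈ G, ∀ t ∈ G, s < t → F s ≠ F t := by
      intro s hs t ht hst heq
      have hs' := mem_range.mp (mem_filter.mp hs).1
      have ht' := mem_range.mp (mem_filter.mp ht).1
      have h5 : ((F s : ℕ) : ℝ) = ((F t : ℕ) : ℝ) := by rw [heq]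
      rw [hFr s hs', hFr t ht'] at h5
      have hQr : (0 : ℝ) < Q := by exact_mod_cast hQ0
      have hstr : (s : ℝ) < t := by exact_mod_cast hst
      have h6 := mono x ((b : ℝ) + Q * s) ((b : ℝ) + Q * t) hx0 (by positivity)
        (by nlinarith) (hrange t ht').2.1
      linarith
    intro s hs t ht heq
    rcases lt_trichotomy s t with h | h | h
    · exact absurd heq (key s hs t ht h)
    · exact h
    · exact absurd heq.symm (key t ht s hs h)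
  refine ⟨G.image F, ?_, ?_⟩
  · rw [card_image_of_injOn hinj]
    exact hGcard
  · intro n hn
    obtain ⟨t, ht, rfl⟩ := mem_image.mp hn
    have ht' := mem_range.mp (mem_filter.mp ht).1
    have hgood := (mem_filter.mp ht).2
    have hlt := hmonoT t ht'
    have hbt : b + Q * t ≤ x ^ 2 := by omega
    have hbt' : b + Q * t < x ^ 2 := by omega
    have hmod : b + Q * t ≡ b0 [MOD Q] := by
      have : b + Q * t ≡ b0 + 0 [MOD Q] := by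
        apply Nat.ModEq.add hb3
        rw [Nat.modEq_zero_iff_dvd]
        exact Dvd.intro _ rfl
      simpa using this
    obtain ⟨hr1, hr2⟩ := hres x (b + Q * t) hxx0 hmod hbt
    obtain ⟨q1, q2, q3⟩ := hrange t ht'
    obtain ⟨w1, w2⟩ := hwin _ q1 q2
    refine ⟨?_, ?_, ?_, hr1, ?_⟩
    · rw [hFr t ht']
      exact w1
    · rw [hFr t ht']
      refine w2.trans ?_
      have e1 : B - β ≤ √(2 * (x - ξ) * (x : ℝ) ^ 3) := Real.le_sqrt_of_sq_le hup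
      have e2 : 6 * B * (B - β) * ((b : ℝ) + Q * t - β) ≤
          6 * B * √(2 * (x - ξ) * (x : ℝ) ^ 3) * (Q * (T + 1)) := by
        have hB0 : 0 ≤ B := by linarith [sq_nonneg (x : ℝ)]
        apply mul_le_mul _ q3 (by linarith) (by positivity)
        exact mul_le_mul_of_nonneg_left e1 (by positivity)
      linarith
    · exact good_squarefree x b t hbt hb0' hbt' hr2 hgood
    · exact congruent x (b + Q * t) hxN (by omega) hbt'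

end Pool.Agent.TH827.CN
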