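import Pool.Agent.TH827.CN.Sieve

set_option autoImplicit false
set_option maxHeartbeats 4000000

/-! # Counting good indices -/

namespace Pool.Agent.TH827.CN

open Finset

/-- the index `t` survives the sieve -/
def Good (x b Q t : ℕ) : Prop := ∀ p : ℕ, p.Prime → 64 < p →
  ¬ p ^ 2 ∣ b + Q * t ∧ ¬ p ^ 2 ∣ x ^ 2 - (b + Q * t) ∧ ¬ p ^ 2 ∣ x ^ 2 + (b + Q * t) ∧
  ¬ (p ∣ x ∧ p ∣ b + Q * t)

lemma canc (p Q s t : ℕ) (hp : p.Prime) (hQ : ¬ p ∣ Q) (h : Q * s ≡ Q * t [MOD p ^ 2]) :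
    s % p ^ 2 = t % p ^ 2 := by
  have hcop : Nat.gcd (p ^ 2) Q = 1 := Nat.Coprime.pow_left 2
    ((Nat.Prime.coprime_iff_not_dvd hp).mpr hQ)
  exact Nat.ModEq.cancel_left_of_coprime hcop h

open Classical in
theorem good_count (x b Q T D0 M J : ℕ) (hQ : ∀ p : ℕ, p.Prime → 64 < p → ¬ p ∣ Q)
    (hQ0 : 0 < Q) (hD : 0 < D0) (hT : T ≤ D0 ^ 2) (hx0 : 0 < x) (hb1 : x ^ 2 ≤ 8 * (b - 1))
    (hb2 : x ^ 2 ≤ 8 * (x ^ 2 - b - Q * T)) (hb3 : b + Q * T ≤ x ^ 2)
    (h1 : 48 * x ^ 2 < D0 ^ 4) (h2 : 4 * (Q * T) < D0 ^ 2)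
    (hM : 512 * (Q * T) * (2 ^ J * D0) ^ 2 ≤ 3 * x ^ 2 * M) (h3 : Q * T ≤ 2 * (2 ^ J * D0)) :
    (T : ℝ) ≤ ((range T).filter (fun t => Good x b Q t)).card +
      3 * (T * (2 / 65) + D0 + (J * ((M + 2) * D0) + (2 * x ^ 2) / (2 ^ J * D0) ^ 2 : ℕ)) +
      (T * (∑ p ∈ x.primeFactors.filter (fun p => 64 < p), (1 : ℝ) / p) +
      x.primeFactors.card) := by
  have hx2 : 0 < x ^ 2 := by positivity
  set S1 := (range T).filter (fun t => ∃ p : ℕ, p.Prime ∧ 64 < p ∧ p ^ 2 ∣ b + Q * t) with hS1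
  set S2 := (range T).filter (fun t => ∃ p : ℕ, p.Prime ∧ 64 < p ∧ p ^ 2 ∣ x ^ 2 - (b + Q * t))
    with hS2
  set S3 := (range T).filter (fun t => ∃ p : ℕ, p.Prime ∧ 64 < p ∧ p ^ 2 ∣ x ^ 2 + (b + Q * t))
    with hS3
  set S4 := (range T).filter (fun t => ∃ p : ℕ, p.Prime ∧ 64 < p ∧ p ∣ x ∧ p ∣ b + Q * t)
    with hS4
  have hcov : range T ⊆ (range T).filter (fun t => Good x b Q t) ∪ (S1 ∪ (S2 ∪ (S3 ∪ S4))) := by
    intro t ht
    by_cases hg : Good x b Q t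
    · exact mem_union_left _ (mem_filter.mpr ⟨ht, hg⟩)
    · apply mem_union_right
      unfold Good at hg
      push Not at hg
      obtain ⟨p, hp, hp64, hg⟩ := hg
      by_cases c1 : p ^ 2 ∣ b + Q * t
      · exact mem_union_left _ (mem_filter.mpr ⟨ht, p, hp, hp64, c1⟩)
      · apply mem_union_right
        by_cases c2 : p ^ 2 ∣ x ^ 2 - (b + Q * t)
        · exact mem_union_left _ (mem_filter.mpr ⟨ht, p, hp, hp64, c2⟩)
        · apply mem_union_right
          by_cases c3 : p ^ 2 ∣ x ^ 2 + (b + Q * t)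
          · exact mem_union_left _ (mem_filter.mpr ⟨ht, p, hp, hp64, c3⟩)
          · apply mem_union_right
            obtain ⟨c4, c5⟩ := hg c1 c2 c3
            exact mem_filter.mpr ⟨ht, p, hp, hp64, c4, c5⟩
  have hc : T ≤ ((range T).filter (fun t => Good x b Q t)).card +
      (S1.card + (S2.card + (S3.card + S4.card))) := by
    have e1 := card_le_card hcov
    rw [card_range] at e1
    refine e1.trans ((card_union_le _ _).trans ?_)
    apply Nat.add_le_add_left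
    refine (card_union_le _ _).trans ?_
    apply Nat.add_le_add_left
    refine (card_union_le _ _).trans ?_
    apply Nat.add_le_add_left
    exact card_union_le _ _
  have hmono : ∀ t, t < T → Q * t + Q ≤ Q * T := by
    intro t ht
    calc Q * t + Q = Q * (t + 1) := by ring
      _ ≤ Q * T := Nat.mul_le_mul_left _ ht
  have hdiv : ∀ A : ℕ, A ≤ 2 * x ^ 2 → A / (2 ^ J * D0) ^ 2 ≤ (2 * x ^ 2) / (2 ^ J * D0) ^ 2 :=
    fun A hA => Nat.div_le_div_right hA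
  have hMi : ∀ N : ℕ, x ^ 2 ≤ 8 * N → 64 * (Q * T) * (2 ^ J * D0) ^ 2 ≤ 3 * N * M := by
    intro N hN
    have e1 : 3 * x ^ 2 * M ≤ 3 * (8 * N) * M := by
      apply Nat.mul_le_mul_right
      omega
    have e2 : 8 * (64 * (Q * T) * (2 ^ J * D0) ^ 2) ≤ 8 * (3 * N * M) := by
      calc 8 * (64 * (Q * T) * (2 ^ J * D0) ^ 2) = 512 * (Q * T) * (2 ^ J * D0) ^ 2 := by ring
        _ ≤ 3 * x ^ 2 * M := hM
        _ ≤ 3 * (8 * N) * M := e1
        _ = 8 * (3 * N * M) := by ring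
    omega
  have g1 : (S1.card : ℝ) ≤ T * (2 / 65) + D0 +
      (J * ((M + 2) * D0) + (2 * x ^ 2) / (2 ^ J * D0) ^ 2 : ℕ) := by
    have := form_bad (b - 1) (Q * T) D0 M J T (fun t => b + Q * t) (by omega) hD
      (by
        intro t ht
        have := hmono t ht
        show b - 1 < b + Q * t ∧ b + Q * t ≤ b - 1 + Q * T
        omega)
      (by
        intro p hp hp64 s t _ _ hs ht
        apply canc p Q s t hp (hQ p hp hp64)
        apply Nat.ModEq.add_left_cancel' b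
        rw [Nat.ModEq, Nat.mod_eq_zero_of_dvd hs, Nat.mod_eq_zero_of_dvd ht])
      hT (by omega) h2 (hMi _ hb1) h3 S1 (fun t ht => mem_range.mp (mem_filter.mp ht).1)
      (fun t ht => (mem_filter.mp ht).2)
    refine this.trans ?_
    have e := hdiv (b - 1 + Q * T) (by omega)
    have e' : ((J * ((M + 2) * D0) + (b - 1 + Q * T) / (2 ^ J * D0) ^ 2 : ℕ) : ℝ) ≤
        ((J * ((M + 2) * D0) + (2 * x ^ 2) / (2 ^ J * D0) ^ 2 : ℕ) : ℝ) := by
      exact_mod_cast Nat.add_le_add_left e _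
    linarith
  have g2 : (S2.card : ℝ) ≤ T * (2 / 65) + D0 +
      (J * ((M + 2) * D0) + (2 * x ^ 2) / (2 ^ J * D0) ^ 2 : ℕ) := by
    have := form_bad (x ^ 2 - b - Q * T) (Q * T) D0 M J T (fun t => x ^ 2 - (b + Q * t))
      (by omega) hD
      (by
        intro t ht
        have := hmono t ht
        show x ^ 2 - b - Q * T < x ^ 2 - (b + Q * t) ∧
          x ^ 2 - (b + Q * t) ≤ x ^ 2 - b - Q * T + Q * T
        omega)
      (by
        intro p hp hp64 s t hs' ht' hs ht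
        apply canc p Q s t hp (hQ p hp hp64)
        have q1 := hmono s hs'
        have q2 := hmono t ht'
        have e : (x ^ 2 - (b + Q * s)) + Q * s = (x ^ 2 - (b + Q * t)) + Q * t := by omega
        have e1 : (x ^ 2 - (b + Q * s)) + Q * s ≡ (x ^ 2 - (b + Q * s)) + Q * t [MOD p ^ 2] := by
          rw [e]
          apply Nat.ModEq.add_right
          rw [Nat.ModEq, Nat.mod_eq_zero_of_dvd hs, Nat.mod_eq_zero_of_dvd ht]
        exact Nat.ModEq.add_left_cancel' _ e1)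
      hT (by omega) h2 (hMi _ hb2) h3 S2 (fun t ht => mem_range.mp (mem_filter.mp ht).1)
      (fun t ht => (mem_filter.mp ht).2)
    refine this.trans ?_
    have e := hdiv (x ^ 2 - b - Q * T + Q * T) (by omega)
    have e' : ((J * ((M + 2) * D0) + (x ^ 2 - b - Q * T + Q * T) / (2 ^ J * D0) ^ 2 : ℕ) : ℝ) ≤
        ((J * ((M + 2) * D0) + (2 * x ^ 2) / (2 ^ J * D0) ^ 2 : ℕ) : ℝ) := by
      exact_mod_cast Nat.add_le_add_left e _
    linarith
  have g3 : (S3.card : ℝ) ≤ T * (2 / 65) + D0 +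
      (J * ((M + 2) * D0) + (2 * x ^ 2) / (2 ^ J * D0) ^ 2 : ℕ) := by
    have := form_bad (x ^ 2 + b - 1) (Q * T) D0 M J T (fun t => x ^ 2 + (b + Q * t))
      (by omega) hD
      (by
        intro t ht
        have := hmono t ht
        show x ^ 2 + b - 1 < x ^ 2 + (b + Q * t) ∧ x ^ 2 + (b + Q * t) ≤ x ^ 2 + b - 1 + Q * T
        omega)
      (by
        intro p hp hp64 s t _ _ hs ht
        apply canc p Q s t hp (hQ p hp hp64)
        apply Nat.ModEq.add_left_cancel' (x ^ 2 + b)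
        have e1 : x ^ 2 + b + Q * s = x ^ 2 + (b + Q * s) := by ring
        have e2 : x ^ 2 + b + Q * t = x ^ 2 + (b + Q * t) := by ring
        rw [e1, e2, Nat.ModEq, Nat.mod_eq_zero_of_dvd hs, Nat.mod_eq_zero_of_dvd ht])
      hT (by omega) h2 (hMi _ (by omega)) h3 S3 (fun t ht => mem_range.mp (mem_filter.mp ht).1)
      (fun t ht => (mem_filter.mp ht).2)
    refine this.trans ?_
    have e := hdiv (x ^ 2 + b - 1 + Q * T) (by omega)
    have e' : ((J * ((M + 2) * D0) + (x ^ 2 + b - 1 + Q * T) / (2 ^ J * D0) ^ 2 : ℕ) : ℝ) ≤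
        ((J * ((M + 2) * D0) + (2 * x ^ 2) / (2 ^ J * D0) ^ 2 : ℕ) : ℝ) := by
      exact_mod_cast Nat.add_le_add_left e _
    linarith
  have g4 := gcd_bad x b Q T hQ S4 (fun t ht => mem_range.mp (mem_filter.mp ht).1)
    (fun t ht => (mem_filter.mp ht).2) (by omega)
  have hc' : (T : ℝ) ≤ ((range T).filter (fun t => Good x b Q t)).card +
      (S1.card + (S2.card + (S3.card + S4.card))) := by exact_mod_cast hc
  linarith

/-- the prime square divisors of a product of pairwise almost coprime numbers -/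
lemma sq_dvd_three (p x b : ℕ) (hp : p.Prime) (hp2 : 2 < p) (hbx : b ≤ x ^ 2)
    (h : p ^ 2 ∣ b * (x ^ 2 - b) * (x ^ 2 + b)) :
    p ^ 2 ∣ b ∨ p ^ 2 ∣ x ^ 2 - b ∨ p ^ 2 ∣ x ^ 2 + b ∨ (p ∣ x ∧ p ∣ b) := by
  by_cases hg : p ∣ x ∧ p ∣ b
  · exact Or.inr (Or.inr (Or.inr hg))
  have hxb : ∀ y, p ∣ x ^ 2 → p ∣ b → y := fun y h1 h2 => absurd ⟨hp.dvd_of_dvd_pow h1, h2⟩ hg
  have cop : ∀ u v : ℕ, ¬ (p ∣ u ∧ p ∣ v) → p ^ 2 ∣ u * v → p ^ 2 ∣ u ∨ p ^ 2 ∣ v := by
    intro u v huv hd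
    by_cases hu : p ∣ u
    · left
      have hv : ¬ p ∣ v := fun hv => huv ⟨hu, hv⟩
      have : Nat.Coprime (p ^ 2) v := Nat.Coprime.pow_left 2 ((hp.coprime_iff_not_dvd).mpr hv)
      exact this.dvd_of_dvd_mul_right hd
    · right
      have : Nat.Coprime (p ^ 2) u := Nat.Coprime.pow_left 2 ((hp.coprime_iff_not_dvd).mpr hu)
      exact this.dvd_of_dvd_mul_left hd
  have n12 : ¬ (p ∣ b ∧ p ∣ x ^ 2 - b) := by
    rintro ⟨h1, h2⟩
    have : p ∣ x ^ 2 := by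
      have := Nat.dvd_add h1 h2
      rwa [Nat.add_sub_cancel' hbx] at this
    exact hxb False this h1
  have n13 : ¬ (p ∣ b ∧ p ∣ x ^ 2 + b) := by
    rintro ⟨h1, h2⟩
    have : p ∣ x ^ 2 := (Nat.dvd_add_left h1).mp h2
    exact hxb False this h1
  have n23 : ¬ (p ∣ x ^ 2 - b ∧ p ∣ x ^ 2 + b) := by
    rintro ⟨h1, h2⟩
    have h3 : p ∣ 2 * x ^ 2 := by
      have := Nat.dvd_add h1 h2
      have e : x ^ 2 - b + (x ^ 2 + b) = 2 * x ^ 2 := by omega
      rwa [e] at this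
    have h4 : p ∣ x ^ 2 := by
      rcases (hp.dvd_mul).mp h3 with h | h
      · exact absurd (Nat.le_of_dvd (by norm_num) h) (by omega)
      · exact h
    have h5 : p ∣ b := (Nat.dvd_add_right h4).mp h2
    exact hxb False h4 h5
  rcases cop (b * (x ^ 2 - b)) (x ^ 2 + b) (by
    rintro ⟨h1, h2⟩
    rcases (hp.dvd_mul).mp h1 with h | h
    · exact n13 ⟨h, h2⟩
    · exact n23 ⟨h, h2⟩) h with h4 | h4
  · rcases cop b (x ^ 2 - b) n12 h4 with h5 | h5
    · exact Or.inl h5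
    · exact Or.inr (Or.inl h5)
  · exact Or.inr (Or.inr (Or.inl h4))

end Pool.Agent.TH827.CN
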