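import Pool.Agent.TH827.CN.Count

set_option autoImplicit false
set_option maxHeartbeats 4000000

/-! # Residue classes -/

namespace Pool.Agent.TH827.CN

open Finset

/-- square of the product of the odd primes up to `61` -/
def R : ℕ := (3 * 5 * 7 * 11 * 13 * 17 * 19 * 23 * 29 * 31 * 37 * 41 * 43 * 47 * 53 * 59 * 61) ^ 2

def Q : ℕ := 8 * R

lemma R_pos : 0 < R := by unfold R; norm_num

lemma Q_pos : 0 < Q := by unfold Q; have := R_pos; omega

lemma Q_prime (p : ℕ) (hp : p.Prime) (h64 : 64 < p) : ¬ p ∣ Q := by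
  intro h
  unfold Q R at h
  have h8 : ∀ q : ℕ, 0 < q → q ≤ 64 → ¬ p ∣ q := by
    intro q hq0 hq hd
    have := Nat.le_of_dvd hq0 hd
    omega
  rcases (hp.dvd_mul).mp h with h | h
  · exact h8 8 (by norm_num) (by norm_num) h
  · have h := hp.dvd_of_dvd_pow h
    simp only [hp.dvd_mul] at h
    have k := h8
    rcases h with (((((((((((((((h | h) | h) | h) | h) | h) | h) | h) | h) | h) | h) | h) | h) | h) | h) | h) | h
    all_goals exact h8 _ (by norm_num) (by norm_num) h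

lemma small_sq (p : ℕ) (hp : p.Prime) (h2 : 2 < p) (h64 : p ≤ 64) : p ^ 2 ∣ R := by
  unfold R
  apply pow_dvd_pow_of_dvd
  interval_cases p <;> first | (exfalso; revert hp; norm_num; done) | norm_num

lemma coprime_8R : Nat.Coprime 8 R := by
  unfold R
  norm_num

/-- the residue classes of `x` and `b` -/
lemma res (j : ℕ) (hj : j = 1 ∨ j = 2 ∨ j = 3 ∨ j = 5 ∨ j = 6 ∨ j = 7) :
    ∃ x0 b0 : ℕ, ∀ x b : ℕ, x ≡ x0 [MOD Q] → b ≡ b0 [MOD Q] → b ≤ x ^ 2 →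
      (b * (x ^ 2 - b) * (x ^ 2 + b)) % 8 = j ∧
      ∀ p : ℕ, p.Prime → p ≤ 64 → ¬ p ^ 2 ∣ b * (x ^ 2 - b) * (x ^ 2 + b) := by
  have main : ∀ xj bj : ℕ, ((bj : ZMod 8) * ((xj : ZMod 8) ^ 2 - bj) * ((xj : ZMod 8) ^ 2 + bj) = j) →
      ∃ x0 b0 : ℕ, ∀ x b : ℕ, x ≡ x0 [MOD Q] → b ≡ b0 [MOD Q] → b ≤ x ^ 2 →
      (b * (x ^ 2 - b) * (x ^ 2 + b)) % 8 = j ∧
      ∀ p : ℕ, p.Prime → p ≤ 64 → ¬ p ^ 2 ∣ b * (x ^ 2 - b) * (x ^ 2 + b) := by
    intro xj bj hxb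
    obtain ⟨x0, hx1, hx2⟩ := Nat.chineseRemainder coprime_8R xj 1
    obtain ⟨b0, hb1, hb2⟩ := Nat.chineseRemainder coprime_8R bj 2
    refine ⟨x0, b0, ?_⟩
    intro x b hx hb hbx
    have hx8 : x ≡ xj [MOD 8] := (hx.of_dvd (Dvd.intro _ rfl)).trans hx1
    have hxR : x ≡ 1 [MOD R] := (hx.of_dvd (Dvd.intro_left _ rfl)).trans hx2
    have hb8 : b ≡ bj [MOD 8] := (hb.of_dvd (Dvd.intro _ rfl)).trans hb1
    have hbR : b ≡ 2 [MOD R] := (hb.of_dvd (Dvd.intro_left _ rfl)).trans hb2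
    have hn8 : (b * (x ^ 2 - b) * (x ^ 2 + b)) % 8 = j := by
      have e : ((b * (x ^ 2 - b) * (x ^ 2 + b) : ℕ) : ZMod 8) = (j : ZMod 8) := by
        push_cast [Nat.cast_sub hbx]
        rw [(ZMod.natCast_eq_natCast_iff _ _ _).mpr hx8,
          (ZMod.natCast_eq_natCast_iff _ _ _).mpr hb8]
        exact hxb
      rw [ZMod.natCast_eq_natCast_iff'] at e
      rw [e]
      rcases hj with h | h | h | h | h | h <;> rw [h]
    refine ⟨hn8, ?_⟩
    intro p hp hp64 hd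
    by_cases hp2 : p = 2
    · rw [hp2] at hd
      have h4 : (b * (x ^ 2 - b) * (x ^ 2 + b)) % 4 = 0 := Nat.mod_eq_zero_of_dvd hd
      omega
    · have hp3 : 2 < p := lt_of_le_of_ne hp.two_le (Ne.symm hp2)
      have e : ((b * (x ^ 2 - b) * (x ^ 2 + b) + 6 : ℕ) : ZMod R) = 0 := by
        push_cast [Nat.cast_sub hbx]
        rw [(ZMod.natCast_eq_natCast_iff _ _ _).mpr hxR,
          (ZMod.natCast_eq_natCast_iff _ _ _).mpr hbR]
        push_cast
        ring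
      rw [ZMod.natCast_eq_zero_iff] at e
      have h1 := (small_sq p hp hp3 hp64).trans e
      have h2 : p ^ 2 ∣ 6 := (Nat.dvd_add_right hd).mp h1
      have h3 : p ^ 2 ≤ 6 := Nat.le_of_dvd (by norm_num) h2
      nlinarith
  rcases hj with h | h | h | h | h | h
  · exact main 0 7 (by rw [h]; decide)
  · exact main 1 2 (by rw [h]; decide)
  · exact main 0 5 (by rw [h]; decide)
  · exact main 0 3 (by rw [h]; decide)
  · exact main 1 6 (by rw [h]; decide)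
  · exact main 0 1 (by rw [h]; decide)

/-- survivors of the sieve are squarefree -/
lemma good_squarefree (x b t : ℕ) (hb : b + Q * t ≤ x ^ 2) (hb0 : 0 < b)
    (hbx : b + Q * t < x ^ 2)
    (hsm : ∀ p : ℕ, p.Prime → p ≤ 64 →
      ¬ p ^ 2 ∣ (b + Q * t) * (x ^ 2 - (b + Q * t)) * (x ^ 2 + (b + Q * t)))
    (hg : Good x b Q t) :
    Squarefree ((b + Q * t) * (x ^ 2 - (b + Q * t)) * (x ^ 2 + (b + Q * t))) := by
  rw [Nat.squarefree_iff_prime_squarefree]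
  intro p hp hd
  rw [← pow_two] at hd
  by_cases h64 : p ≤ 64
  · exact hsm p hp h64 hd
  · push Not at h64
    obtain ⟨h1, h2, h3, h4⟩ := hg p hp h64
    rcases sq_dvd_three p x (b + Q * t) hp (by omega) hb hd with h | h | h | h
    · exact h1 h
    · exact h2 h
    · exact h3 h
    · exact h4 h

/-- `b (x ^ 2 - b) (x ^ 2 + b)` is the area of a rational right triangle -/
lemma congruent (x b : ℕ) (hx : 0 < x) (hb : 0 < b) (hbx : b < x ^ 2) :
    ∃ r s t : ℚ, 0 < r ∧ 0 < s ∧ 0 < t ∧ r ^ 2 + s ^ 2 = t ^ 2 ∧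
      ((b * (x ^ 2 - b) * (x ^ 2 + b) : ℕ) : ℚ) = r * s / 2 := by
  have hxq : (0 : ℚ) < x := by exact_mod_cast hx
  have hbq : (0 : ℚ) < b := by exact_mod_cast hb
  have hbxq : (b : ℚ) < (x : ℚ) ^ 2 := by exact_mod_cast hbx
  refine ⟨((x : ℚ) ^ 4 - b ^ 2) / x, 2 * (x : ℚ) ^ 2 * b / x, ((x : ℚ) ^ 4 + b ^ 2) / x,
    ?_, ?_, ?_, ?_, ?_⟩
  · apply div_pos _ hxq
    have : (x : ℚ) ^ 4 - b ^ 2 = (x ^ 2 - b) * (x ^ 2 + b) := by ring
    rw [this]
    apply mul_pos (by linarith) (by positivity)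
  · positivity
  · positivity
  · field_simp
    ring
  · push_cast [Nat.cast_sub hbx.le]
    field_simp
    ring

end Pool.Agent.TH827.CN
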