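import Pool.Agent.TH827.CN.Sq

set_option autoImplicit false
set_option maxHeartbeats 4000000

/-! # Sieving three linear forms by squares of primes in a short window -/

namespace Pool.Agent.TH827.CN

open Finset

/-- a set of indices in one residue class -/
lemma res_card (m T : ℕ) (hm : 0 < m) (S : Finset ℕ) (hS : ∀ t ∈ S, t < T)
    (h : ∀ s ∈ S, ∀ t ∈ S, s % m = t % m) : S.card ≤ T / m + 1 := by
  have hmaps : ∀ t ∈ S, t / m ∈ range (T / m + 1) := by
    intro t ht
    rw [mem_range, Nat.lt_succ_iff]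
    exact Nat.div_le_div_right (hS t ht).le
  have hinj : Set.InjOn (fun t => t / m) S := by
    intro s hs t ht hst
    have h1 := Nat.div_add_mod s m
    have h2 := Nat.div_add_mod t m
    have h3 := h s hs t ht
    have h4 : s / m = t / m := hst
    rw [h4, h3] at h1
    omega
  have := card_le_card_of_injOn (fun t => t / m) hmaps hinj
  rwa [card_range] at this

/-- one form: few indices `t < T` for which `ℓ t` is divisible by the square of a prime `> 64` -/
lemma form_bad (N h D0 M J T : ℕ) (ℓ : ℕ → ℕ) (hN : 0 < N) (hD : 0 < D0)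
    (hwin : ∀ t, t < T → N < ℓ t ∧ ℓ t ≤ N + h)
    (hcong : ∀ p : ℕ, p.Prime → 64 < p → ∀ s t, s < T → t < T → p ^ 2 ∣ ℓ s → p ^ 2 ∣ ℓ t →
      s % p ^ 2 = t % p ^ 2)
    (hT : T ≤ D0 ^ 2)
    (h1 : 24 * N < D0 ^ 4) (h2 : 4 * h < D0 ^ 2) (hM : 64 * h * (2 ^ J * D0) ^ 2 ≤ 3 * N * M)
    (h3 : h ≤ 2 * (2 ^ J * D0)) (S : Finset ℕ) (hS : ∀ t ∈ S, t < T)
    (hS2 : ∀ t ∈ S, ∃ p : ℕ, p.Prime ∧ 64 < p ∧ p ^ 2 ∣ ℓ t) :
    (S.card : ℝ) ≤ T * (2 / 65) + D0 + (J * ((M + 2) * D0) + (N + h) / (2 ^ J * D0) ^ 2 : ℕ) := by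
  classical
  set S1 := (Ioo 64 D0).biUnion (fun p => S.filter (fun t => p.Prime ∧ p ^ 2 ∣ ℓ t)) with hS1
  set S3 := S.filter (fun t => ∃ p : ℕ, p.Prime ∧ 64 < p ∧ D0 ≤ p ∧ p ^ 2 ∣ ℓ t) with hS3
  have hcov : S ⊆ S1 ∪ S3 := by
    intro t ht
    obtain ⟨p, hp, hp64, hpd⟩ := hS2 t ht
    by_cases hpD : p < D0
    · apply mem_union_left
      rw [hS1, mem_biUnion]
      exact ⟨p, mem_Ioo.mpr ⟨hp64, hpD⟩, mem_filter.mpr ⟨ht, hp, hpd⟩⟩
    · apply mem_union_right
      exact mem_filter.mpr ⟨ht, p, hp, hp64, by omega, hpd⟩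
  have hc : S.card ≤ S1.card + S3.card := (card_le_card hcov).trans (card_union_le _ _)
  -- small primes
  have hc1 : (S1.card : ℝ) ≤ T * (2 / 65) + D0 := by
    have e1 : (S1.card : ℝ) ≤ ∑ p ∈ Ioo 64 D0, ((T : ℝ) * ((p : ℝ) ^ 2)⁻¹ + 1) := by
      have e0 : S1.card ≤ ∑ p ∈ Ioo 64 D0,
          (S.filter (fun t => p.Prime ∧ p ^ 2 ∣ ℓ t)).card := card_biUnion_le
      calc (S1.card : ℝ) ≤ ((∑ p ∈ Ioo 64 D0,
          (S.filter (fun t => p.Prime ∧ p ^ 2 ∣ ℓ t)).card : ℕ) : ℝ) := by exact_mod_cast e0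
        _ = ∑ p ∈ Ioo 64 D0, ((S.filter (fun t => p.Prime ∧ p ^ 2 ∣ ℓ t)).card : ℝ) := by
            push_cast; rfl
        _ ≤ ∑ p ∈ Ioo 64 D0, ((T : ℝ) * ((p : ℝ) ^ 2)⁻¹ + 1) := by
            apply sum_le_sum
            intro p hp
            rw [mem_Ioo] at hp
            by_cases hpp : p.Prime
            · have e2 := res_card (p ^ 2) T (by have := hpp.pos; positivity)
                (S.filter (fun t => p.Prime ∧ p ^ 2 ∣ ℓ t))
                (fun t ht => hS t (mem_filter.mp ht).1)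
                (fun s hs t ht => hcong p hpp hp.1 s t (hS s (mem_filter.mp hs).1)
                  (hS t (mem_filter.mp ht).1) (mem_filter.mp hs).2.2 (mem_filter.mp ht).2.2)
              have e3 : ((T / p ^ 2 : ℕ) : ℝ) ≤ (T : ℝ) * ((p : ℝ) ^ 2)⁻¹ := by
                refine Nat.cast_div_le.trans (le_of_eq ?_)
                push_cast
                rw [div_eq_mul_inv]
              calc ((S.filter (fun t => p.Prime ∧ p ^ 2 ∣ ℓ t)).card : ℝ) ≤
                    ((T / p ^ 2 + 1 : ℕ) : ℝ) := by exact_mod_cast e2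
                _ = ((T / p ^ 2 : ℕ) : ℝ) + 1 := by push_cast; rfl
                _ ≤ (T : ℝ) * ((p : ℝ) ^ 2)⁻¹ + 1 := by linarith
            · have e2 : S.filter (fun t => p.Prime ∧ p ^ 2 ∣ ℓ t) = ∅ := by
                apply filter_eq_empty_iff.mpr
                intro t _ h4
                exact hpp h4.1
              rw [e2]
              simp only [card_empty, Nat.cast_zero]
              positivity
    rw [sum_add_distrib, ← mul_sum] at e1
    have e4 : (∑ i ∈ Ioo 64 D0, ((i : ℝ) ^ 2)⁻¹) ≤ 2 / ((64 : ℕ) + 1) :=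
      sum_Ioo_inv_sq_le 64 D0
    have e5 : (∑ _i ∈ Ioo 64 D0, (1 : ℝ)) ≤ D0 := by
      rw [sum_const, nsmul_eq_mul, mul_one]
      have : (Ioo 64 D0).card ≤ D0 := by
        rw [Nat.card_Ioo]
        omega
      exact_mod_cast this
    have e6 : (T : ℝ) * (∑ i ∈ Ioo 64 D0, ((i : ℝ) ^ 2)⁻¹) ≤ T * (2 / 65) := by
      apply mul_le_mul_of_nonneg_left _ (Nat.cast_nonneg _)
      refine e4.trans (le_of_eq ?_)
      norm_num
    linarith
  -- large primes
  have hc3 : S3.card ≤ J * ((M + 2) * D0) + (N + h) / (2 ^ J * D0) ^ 2 := by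
    have hch : ∀ t ∈ S3, ∃ p : ℕ, p.Prime ∧ 64 < p ∧ D0 ≤ p ∧ p ^ 2 ∣ ℓ t := fun t ht =>
      (mem_filter.mp ht).2
    choose! f hf using hch
    have hinj : Set.InjOn f S3 := by
      intro s hs t ht hst
      obtain ⟨h4, h5, h6, h7⟩ := hf s hs
      obtain ⟨h4', h5', h6', h7'⟩ := hf t ht
      rw [← hst] at h7'
      have hs' := hS s (mem_filter.mp hs).1
      have ht' := hS t (mem_filter.mp ht).1
      have h8 := hcong (f s) h4 h5 s t hs' ht' h7 h7'
      have h9 : T ≤ f s ^ 2 := hT.trans (Nat.pow_le_pow_left h6 2)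
      rwa [Nat.mod_eq_of_lt (by omega), Nat.mod_eq_of_lt (by omega)] at h8
    rw [← card_image_of_injOn hinj]
    apply few N h D0 M J hN hD _ _ _ h1 h2 hM h3
    · intro d hd
      obtain ⟨t, ht, rfl⟩ := mem_image.mp hd
      obtain ⟨h4, h5, h6, m, hm⟩ := hf t ht
      obtain ⟨h8, h9⟩ := hwin t (hS t (mem_filter.mp ht).1)
      refine ⟨m, ?_, ?_⟩
      · rw [mul_comm, ← hm]
        exact h8
      · rw [mul_comm, ← hm]
        exact h9
    · intro d hd
      obtain ⟨t, ht, rfl⟩ := mem_image.mp hd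
      exact (hf t ht).2.2.1
  have hc' : (S.card : ℝ) ≤ S1.card + S3.card := by exact_mod_cast hc
  have hc3' : (S3.card : ℝ) ≤
      ((J * ((M + 2) * D0) + (N + h) / (2 ^ J * D0) ^ 2 : ℕ) : ℝ) := by exact_mod_cast hc3
  linarith

/-- the greatest common divisor condition -/
lemma gcd_bad (x b Q T : ℕ) (hQ : ∀ p : ℕ, p.Prime → 64 < p → ¬ p ∣ Q) (S : Finset ℕ)
    (hS : ∀ t ∈ S, t < T)
    (hS2 : ∀ t ∈ S, ∃ p : ℕ, p.Prime ∧ 64 < p ∧ p ∣ x ∧ p ∣ b + Q * t) (hx : x ≠ 0) :
    (S.card : ℝ) ≤ T * (∑ p ∈ x.primeFactors.filter (fun p => 64 < p), (1 : ℝ) / p) +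
      x.primeFactors.card := by
  classical
  have hcov : S ⊆ (x.primeFactors.filter (fun p => 64 < p)).biUnion (fun p =>
      S.filter (fun t => p ∣ b + Q * t)) := by
    intro t ht
    obtain ⟨p, hp, hp64, hpx, hpb⟩ := hS2 t ht
    rw [mem_biUnion]
    exact ⟨p, mem_filter.mpr ⟨Nat.mem_primeFactors.mpr ⟨hp, hpx, hx⟩, hp64⟩,
      mem_filter.mpr ⟨ht, hpb⟩⟩
  have h1 : S.card ≤ ∑ p ∈ x.primeFactors.filter (fun p => 64 < p),
      (S.filter (fun t => p ∣ b + Q * t)).card := (card_le_card hcov).trans card_biUnion_le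
  have h2 : (S.card : ℝ) ≤ ∑ p ∈ x.primeFactors.filter (fun p => 64 < p),
      ((T : ℝ) * (1 / p) + 1) := by
    calc (S.card : ℝ) ≤ ((∑ p ∈ x.primeFactors.filter (fun p => 64 < p),
        (S.filter (fun t => p ∣ b + Q * t)).card : ℕ) : ℝ) := by exact_mod_cast h1
      _ = ∑ p ∈ x.primeFactors.filter (fun p => 64 < p),
        ((S.filter (fun t => p ∣ b + Q * t)).card : ℝ) := by push_cast; rfl
      _ ≤ _ := by
        apply sum_le_sum
        intro p hp
        rw [mem_filter] at hp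
        have hpp := Nat.prime_of_mem_primeFactors hp.1
        have e2 := res_card p T hpp.pos (S.filter (fun t => p ∣ b + Q * t))
          (fun t ht => hS t (mem_filter.mp ht).1) (by
            intro s hs t ht
            have hs1 := (mem_filter.mp hs).2
            have ht1 := (mem_filter.mp ht).2
            have h3 : (b + Q * s) ≡ (b + Q * t) [MOD p] := by
              rw [Nat.ModEq, Nat.mod_eq_zero_of_dvd hs1, Nat.mod_eq_zero_of_dvd ht1]
            have h4 : Q * s ≡ Q * t [MOD p] := Nat.ModEq.add_left_cancel' b h3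
            have hcop : Nat.gcd p Q = 1 := (Nat.Prime.coprime_iff_not_dvd hpp).mpr
              (hQ p hpp hp.2)
            exact Nat.ModEq.cancel_left_of_coprime hcop h4)
        have e3 : ((T / p : ℕ) : ℝ) ≤ (T : ℝ) * (1 / p) := by
          refine Nat.cast_div_le.trans (le_of_eq ?_)
          rw [mul_one_div]
        calc ((S.filter (fun t => p ∣ b + Q * t)).card : ℝ) ≤
              ((T / p + 1 : ℕ) : ℝ) := by exact_mod_cast e2
          _ = ((T / p : ℕ) : ℝ) + 1 := by push_cast; rfl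
          _ ≤ (T : ℝ) * (1 / p) + 1 := by linarith
  rw [sum_add_distrib, ← mul_sum] at h2
  have h3 : (∑ _p ∈ x.primeFactors.filter (fun p => 64 < p), (1 : ℝ)) ≤ x.primeFactors.card := by
    rw [sum_const, nsmul_eq_mul, mul_one]
    exact_mod_cast card_le_card (filter_subset _ _)
  linarith

/-- choice of `x` in a progression with few small prime factors `> 64` -/
lemma choose_x (x1 Q K B : ℕ) (hQ : ∀ p : ℕ, p.Prime → 64 < p → ¬ p ∣ Q) (hK : 0 < K)
    (hB : x1 + Q * K ≤ B) (hx1 : 0 < x1) :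
    ∃ k, k < K ∧ (∑ p ∈ (x1 + Q * k).primeFactors.filter (fun p => 64 < p), (1 : ℝ) / p) ≤
      2 / 65 + (1 + Real.log B) / K := by
  classical
  have hKr : (0 : ℝ) < K := by exact_mod_cast hK
  by_contra hcon
  push Not at hcon
  have h1 : (K : ℝ) * (2 / 65 + (1 + Real.log B) / K) < ∑ k ∈ range K,
      ∑ p ∈ (x1 + Q * k).primeFactors.filter (fun p => 64 < p), (1 : ℝ) / p := by
    have := sum_lt_sum_of_nonempty (s := range K) (nonempty_range_iff.mpr (by omega))
      (fun k hk => hcon k (mem_range.mp hk))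
    rwa [sum_const, card_range, nsmul_eq_mul] at this
  have h2 : ∀ k ∈ range K, ∑ p ∈ (x1 + Q * k).primeFactors.filter (fun p => 64 < p),
      (1 : ℝ) / p ≤ ∑ p ∈ Ioo 64 (B + 1), if p.Prime ∧ p ∣ x1 + Q * k then (1 : ℝ) / p else 0 := by
    intro k hk
    rw [mem_range] at hk
    rw [← sum_filter]
    apply sum_le_sum_of_subset_of_nonneg
    · intro p hp
      rw [mem_filter, Nat.mem_primeFactors] at hp
      rw [mem_filter, mem_Ioo]
      have h3 : p ≤ x1 + Q * k := Nat.le_of_dvd (by omega) hp.1.2.1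
      have h4 : Q * k ≤ Q * K := Nat.mul_le_mul_left _ hk.le
      exact ⟨⟨hp.2, by omega⟩, hp.1.1, hp.1.2.1⟩
    · intro p _ _
      positivity
  have h3 := sum_le_sum h2
  rw [sum_comm] at h3
  have h4 : ∑ p ∈ Ioo 64 (B + 1), ∑ k ∈ range K,
      (if p.Prime ∧ p ∣ x1 + Q * k then (1 : ℝ) / p else 0) ≤
      ∑ p ∈ Ioo 64 (B + 1), ((K : ℝ) * ((p : ℝ) ^ 2)⁻¹ + (p : ℝ)⁻¹) := by
    apply sum_le_sum
    intro p hp
    rw [mem_Ioo] at hp
    have hp0 : (0 : ℝ) < p := by
      have : 0 < p := by omega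
      exact_mod_cast this
    rw [← sum_filter, sum_const, nsmul_eq_mul]
    by_cases hpp : p.Prime
    · have e2 := res_card p K hpp.pos ((range K).filter (fun k => p.Prime ∧ p ∣ x1 + Q * k))
        (fun t ht => mem_range.mp (mem_filter.mp ht).1) (by
          intro s hs t ht
          have hs1 := (mem_filter.mp hs).2.2
          have ht1 := (mem_filter.mp ht).2.2
          have h3 : (x1 + Q * s) ≡ (x1 + Q * t) [MOD p] := by
            rw [Nat.ModEq, Nat.mod_eq_zero_of_dvd hs1, Nat.mod_eq_zero_of_dvd ht1]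
          have h4 : Q * s ≡ Q * t [MOD p] := Nat.ModEq.add_left_cancel' x1 h3
          have hcop : Nat.gcd p Q = 1 := (Nat.Prime.coprime_iff_not_dvd hpp).mpr
            (hQ p hpp hp.1)
          exact Nat.ModEq.cancel_left_of_coprime hcop h4)
      have e3 : ((K / p : ℕ) : ℝ) ≤ (K : ℝ) / p := Nat.cast_div_le
      have e4 : (((range K).filter (fun k => p.Prime ∧ p ∣ x1 + Q * k)).card : ℝ) ≤
          (K : ℝ) / p + 1 := by
        calc (((range K).filter (fun k => p.Prime ∧ p ∣ x1 + Q * k)).card : ℝ) ≤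
              ((K / p + 1 : ℕ) : ℝ) := by exact_mod_cast e2
          _ = ((K / p : ℕ) : ℝ) + 1 := by push_cast; rfl
          _ ≤ (K : ℝ) / p + 1 := by linarith
      calc (((range K).filter (fun k => p.Prime ∧ p ∣ x1 + Q * k)).card : ℝ) * (1 / p) ≤
            ((K : ℝ) / p + 1) * (1 / p) := mul_le_mul_of_nonneg_right e4 (by positivity)
        _ = (K : ℝ) * ((p : ℝ) ^ 2)⁻¹ + (p : ℝ)⁻¹ := by
            field_simp
    · have e2 : (range K).filter (fun k => p.Prime ∧ p ∣ x1 + Q * k) = ∅ := by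
        apply filter_eq_empty_iff.mpr
        intro t _ h4
        exact hpp h4.1
      rw [e2]
      simp only [card_empty, Nat.cast_zero, zero_mul]
      positivity
  rw [sum_add_distrib, ← mul_sum] at h4
  have e4 : (∑ i ∈ Ioo 64 (B + 1), ((i : ℝ) ^ 2)⁻¹) ≤ 2 / ((64 : ℕ) + 1) :=
    sum_Ioo_inv_sq_le 64 (B + 1)
  have e5 : (∑ i ∈ Ioo 64 (B + 1), ((i : ℝ))⁻¹) ≤ 1 + Real.log B := by
    have e6 := harmonic_le_one_add_log B
    refine le_trans ?_ e6
    rw [harmonic_eq_sum_Icc]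
    push_cast
    apply sum_le_sum_of_subset_of_nonneg
    · intro i hi
      rw [mem_Ioo] at hi
      rw [mem_Icc]
      omega
    · intro i _ _
      positivity
  have e6 : (K : ℝ) * (∑ i ∈ Ioo 64 (B + 1), ((i : ℝ) ^ 2)⁻¹) ≤ K * (2 / 65) := by
    apply mul_le_mul_of_nonneg_left _ hKr.le
    refine e4.trans (le_of_eq ?_)
    norm_num
  have e7 : (K : ℝ) * (2 / 65 + (1 + Real.log B) / K) = K * (2 / 65) + (1 + Real.log B) := by
    field_simp
  linarith

end Pool.Agent.TH827.CN
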